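import Pool.Agent.TH837.SC.Asy

/-!
(min,+) programs as lists of functions; randomised approximation; the program of factor `k`.
-/

set_option autoImplicit false

namespace Pool.Agent.TH837.SC

open Finset
open scoped Nat ENNReal

/-- `Prog l`: the functions of the list `l` (newest first) are computed one after the other; each
is an input, a constant, or the minimum or the sum of two functions computed before. -/
inductive Prog {Ω : Type} : List ((Ω → ℝ≥0∞) → ℝ≥0∞) → Prop
  | nil : Prog []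
  | inp (l : List ((Ω → ℝ≥0∞) → ℝ≥0∞)) (S : Ω) (hl : Prog l) : Prog ((fun w => w S) :: l)
  | cst (l : List ((Ω → ℝ≥0∞) → ℝ≥0∞)) (c : ℝ≥0∞) (hl : Prog l) : Prog ((fun _ => c) :: l)
  | mn (l : List ((Ω → ℝ≥0∞) → ℝ≥0∞)) (f g : (Ω → ℝ≥0∞) → ℝ≥0∞) (hl : Prog l) (hf : f ∈ l)
      (hg : g ∈ l) : Prog ((fun w => min (f w) (g w)) :: l)
  | ad (l : List ((Ω → ℝ≥0∞) → ℝ≥0∞)) (f g : (Ω → ℝ≥0∞) → ℝ≥0∞) (hl : Prog l) (hf : f ∈ l)
      (hg : g ∈ l) : Prog ((fun w => f w + g w) :: l)

/-- the function `f` is computed by a (min,+) program with at most `s` instructions -/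
def Computes {Ω : Type} (f : (Ω → ℝ≥0∞) → ℝ≥0∞) (s : ℕ) : Prop :=
  ∃ l : List ((Ω → ℝ≥0∞) → ℝ≥0∞), Prog l ∧ f ∈ l ∧ l.length ≤ s

theorem Prog.toIns {Ω : Type} {l : List ((Ω → ℝ≥0∞) → ℝ≥0∞)} (h : Prog l) :
    ∃ L : List (Ins Ω), L.length = l.length ∧ ∀ i f, l[i]? = some f →
      ∀ w, val (L.drop i) w = f w := by
  induction h with
  | nil => exact ⟨[], rfl, fun i f h => by simp at h⟩
  | inp l S hl ih =>
    obtain ⟨L, hL, h⟩ := ih
    refine ⟨.inp S :: L, by simp [hL], fun i f hf w => ?_⟩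
    rcases i with _ | i
    · simp only [List.getElem?_cons_zero, Option.some.injEq] at hf
      rw [← hf, List.drop_zero, val]
    · simp only [List.getElem?_cons_succ] at hf
      exact h i f hf w
  | cst l c hl ih =>
    obtain ⟨L, hL, h⟩ := ih
    refine ⟨.cst c :: L, by simp [hL], fun i f hf w => ?_⟩
    rcases i with _ | i
    · simp only [List.getElem?_cons_zero, Option.some.injEq] at hf
      rw [← hf, List.drop_zero, val]
    · simp only [List.getElem?_cons_succ] at hf
      exact h i f hf w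
  | mn l f g hl hf hg ih =>
    obtain ⟨L, hL, h⟩ := ih
    obtain ⟨a, ha⟩ := List.mem_iff_getElem?.1 hf
    obtain ⟨b, hb⟩ := List.mem_iff_getElem?.1 hg
    refine ⟨.mn a b :: L, by simp [hL], fun i f' hf' w => ?_⟩
    rcases i with _ | i
    · simp only [List.getElem?_cons_zero, Option.some.injEq] at hf'
      rw [← hf', List.drop_zero, val, h a f ha w, h b g hb w]
    · simp only [List.getElem?_cons_succ] at hf'
      exact h i f' hf' w
  | ad l f g hl hf hg ih =>
    obtain ⟨L, hL, h⟩ := ih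
    obtain ⟨a, ha⟩ := List.mem_iff_getElem?.1 hf
    obtain ⟨b, hb⟩ := List.mem_iff_getElem?.1 hg
    refine ⟨.ad a b :: L, by simp [hL], fun i f' hf' w => ?_⟩
    rcases i with _ | i
    · simp only [List.getElem?_cons_zero, Option.some.injEq] at hf'
      rw [← hf', List.drop_zero, val, h a f ha w, h b g hb w]
    · simp only [List.getElem?_cons_succ] at hf'
      exact h i f' hf' w

theorem Computes.toIns {Ω : Type} {f : (Ω → ℝ≥0∞) → ℝ≥0∞} {s : ℕ} (h : Computes f s) :
    ∃ L : List (Ins Ω), L.length ≤ s ∧ ∀ w, val L w = f w := by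
  obtain ⟨l, hl, hf, hs⟩ := h
  obtain ⟨L, hL, h1⟩ := hl.toIns
  obtain ⟨i, hi⟩ := List.mem_iff_getElem?.1 hf
  refine ⟨L.drop i, ?_, h1 i f hi⟩
  rw [List.length_drop]
  omega

section

variable {k n : ℕ}

/-- the sets of `F` cover everything -/
def Covers (F : Finset (KSet k n)) : Prop := ∀ u : Fin n, ∃ S ∈ F, u ∈ S.1

/-- the least weight of a cover -/
noncomputable def opt (w : KSet k n → ℝ≥0∞) : ℝ≥0∞ :=
  ⨅ (F : Finset (KSet k n)) (_ : Covers F), ∑ S ∈ F, w S

/-- the sets of `F` have weight one, the others have weight infinity -/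
noncomputable def unit (F : Finset (KSet k n)) : KSet k n → ℝ≥0∞ :=
  fun S => if S ∈ F then 1 else ⊤

/-- a randomised program (with the uniform distribution on `R`) which never returns less than the
optimum, and which on each family with a cover returns at most `ρ` times the optimum with
probability at least `q` -/
structure RandApprox (ρ q : ℝ) {R : Type} [Fintype R]
    (f : R → (KSet k n → ℝ≥0∞) → ℝ≥0∞) : Prop where
  sound : ∀ (r : R) (F : Finset (KSet k n)), opt (unit F) ≤ f r (unit F)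
  good : ∀ F : Finset (KSet k n), Covers F → q * Nat.card R ≤
    Nat.card {r : R // f r (unit F) ≤ ENNReal.ofReal ρ * opt (unit F)}

theorem unit_eq_wt (F : Finset (KSet k n)) : unit F = wt (F : Set (KSet k n)) := by
  classical
  funext S
  simp [unit, wt]

theorem covers_of_opt {F : Finset (KSet k n)} (h : opt (unit F) ≠ ⊤) : Covers F := by
  by_contra hF
  apply h
  rw [opt, iInf_eq_top]
  intro F'
  rw [iInf_eq_top]
  intro hF'
  have : ∃ S ∈ F', S ∉ F := by
    by_contra hcon
    push Not at hcon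
    exact hF fun u => by
      obtain ⟨S, hS, hu⟩ := hF' u
      exact ⟨S, hcon S hS, hu⟩
  obtain ⟨S, hS, hSF⟩ := this
  rw [ENNReal.sum_eq_top]
  exact ⟨S, hS, by simp [unit, hSF]⟩

open Classical in
/-- the family of the blocks -/
noncomputable def blks {m : ℕ} (σ : (Fin m × Fin k) ≃ Fin n) : Finset (KSet k n) :=
  univ.image (blk σ)

theorem coe_blks {m : ℕ} (σ : (Fin m × Fin k) ≃ Fin n) :
    ((blks σ : Finset (KSet k n)) : Set (KSet k n)) = Set.range (blk σ) := by
  simp [blks]

theorem covers_blks {m : ℕ} (σ : (Fin m × Fin k) ≃ Fin n) : Covers (blks σ) := by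
  intro u
  exact ⟨blk σ (σ.symm u).1, by simp [blks], mem_blk.2 rfl⟩

theorem opt_blks {m : ℕ} (σ : (Fin m × Fin k) ≃ Fin n) : opt (unit (blks σ)) ≤ m := by
  refine (iInf₂_le (blks σ) (covers_blks σ)).trans ?_
  rw [sum_congr rfl (g := fun _ => (1 : ℝ≥0∞)) (fun S hS => by simp [unit, hS])]
  rw [sum_const, nsmul_eq_mul, mul_one]
  have : (blks σ).card ≤ m := by
    classical
    exact card_image_le.trans (by simp)
  exact_mod_cast this

/-- averaging over the random programs -/
theorem rand {m : ℕ} {ρ q : ℝ} (hρ : 0 ≤ ρ) (hn : n = m * k) {R : Type} [Fintype R] [Nonempty R]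
    {f : R → (KSet k n → ℝ≥0∞) → ℝ≥0∞} (hf : RandApprox ρ q f) {s : ℕ}
    (hs : ∀ r, Computes (f r) s) :
    ∃ (L : List (Ins (KSet k n))) (Z : Finset ((Fin m × Fin k) ≃ Fin n)), L.length ≤ s ∧
      Req L Z (ENNReal.ofReal (ρ * m)) ∧ q * (n ! : ℕ) ≤ Z.card := by
  classical
  let T : R → Finset ((Fin m × Fin k) ≃ Fin n) := fun r =>
    univ.filter fun σ => f r (unit (blks σ)) ≤ ENNReal.ofReal (ρ * m)
  have hcard : (univ : Finset ((Fin m × Fin k) ≃ Fin n)).card = n ! := by
    rw [card_univ, Fintype.card_equiv (Fintype.equivFinOfCardEq (by simp [hn]))]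
    simp [hn]
  have h1 : ∃ r, q * (n ! : ℕ) ≤ (T r).card := by
    by_contra hcon
    push Not at hcon
    have h2 : ∑ r : R, ((T r).card : ℝ) < ∑ _r : R, q * (n ! : ℕ) :=
      sum_lt_sum_of_nonempty univ_nonempty fun r _ => hcon r
    have h3 : ∑ r : R, ((T r).card : ℝ) =
        ∑ σ : (Fin m × Fin k) ≃ Fin n, ((univ.filter fun r : R =>
          f r (unit (blks σ)) ≤ ENNReal.ofReal (ρ * m)).card : ℝ) := by
      have : ∑ r : R, (T r).card = ∑ σ : (Fin m × Fin k) ≃ Fin n, (univ.filter fun r : R =>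
          f r (unit (blks σ)) ≤ ENNReal.ofReal (ρ * m)).card := by
        simp only [T, card_filter]
        exact sum_comm
      exact_mod_cast this
    have h4 : ∑ _σ : (Fin m × Fin k) ≃ Fin n, q * Nat.card R ≤
        ∑ σ : (Fin m × Fin k) ≃ Fin n, ((univ.filter fun r : R =>
          f r (unit (blks σ)) ≤ ENNReal.ofReal (ρ * m)).card : ℝ) := by
      refine sum_le_sum fun σ _ => (hf.good (blks σ) (covers_blks σ)).trans ?_
      rw [Nat.card_eq_fintype_card, Fintype.card_subtype]
      refine Nat.cast_le.2 (card_le_card fun r hr => ?_)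
      rw [mem_filter] at hr ⊢
      refine ⟨mem_univ _, hr.2.trans ?_⟩
      rw [ENNReal.ofReal_mul hρ]
      refine mul_le_mul_right ?_ _
      rw [ENNReal.ofReal_natCast]
      exact opt_blks σ
    rw [sum_const, hcard, nsmul_eq_mul] at h4
    rw [h3, sum_const, card_univ, nsmul_eq_mul] at h2
    rw [Nat.card_eq_fintype_card] at h4
    nlinarith
  obtain ⟨r, hr⟩ := h1
  obtain ⟨L, hL, hval⟩ := (hs r).toIns
  refine ⟨L, T r, hL, ⟨?_, ?_⟩, hr⟩
  · intro F hF u
    have h2 : Covers (F.toFinset) := by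
      apply covers_of_opt
      have h3 : (unit F.toFinset : KSet k n → ℝ≥0∞) = wt F := by rw [unit_eq_wt]; simp
      refine ne_top_of_le_ne_top hF ?_
      rw [hval, ← h3]
      exact hf.sound r _
    obtain ⟨S, hS, hu⟩ := h2 u
    exact ⟨S, by simpa using hS, hu⟩
  · intro σ hσ
    rw [hval, ← coe_blks, ← unit_eq_wt]
    exact (mem_filter.1 hσ).2

end

section upper

variable {Ω : Type}

theorem fold_min {l : List ((Ω → ℝ≥0∞) → ℝ≥0∞)} (hl : Prog l) (g₀ : (Ω → ℝ≥0∞) → ℝ≥0∞)
    (h₀ : g₀ ∈ l) : ∀ gs : List ((Ω → ℝ≥0∞) → ℝ≥0∞), (∀ g ∈ gs, g ∈ l) →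
    ∃ l', Prog l' ∧ (∀ f ∈ l, f ∈ l') ∧ l'.length = l.length + gs.length ∧
      (fun w => gs.foldr (fun g a => min (g w) a) (g₀ w)) ∈ l' := by
  intro gs
  induction gs with
  | nil => intro _; exact ⟨l, hl, fun _ h => h, by simp, by simpa using h₀⟩
  | cons g gs ih =>
    intro h
    obtain ⟨l', h1, h2, h3, h4⟩ := ih fun g' hg' => h g' (List.mem_cons_of_mem _ hg')
    refine ⟨_, Prog.mn l' g _ h1 (h2 g (h g (by simp))) h4, fun f hf =>
      List.mem_cons_of_mem _ (h2 f hf), by simp [h3]; omega, ?_⟩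
    simp

theorem fold_add {l : List ((Ω → ℝ≥0∞) → ℝ≥0∞)} (hl : Prog l) (g₀ : (Ω → ℝ≥0∞) → ℝ≥0∞)
    (h₀ : g₀ ∈ l) : ∀ gs : List ((Ω → ℝ≥0∞) → ℝ≥0∞), (∀ g ∈ gs, g ∈ l) →
    ∃ l', Prog l' ∧ (∀ f ∈ l, f ∈ l') ∧ l'.length = l.length + gs.length ∧
      (fun w => gs.foldr (fun g a => g w + a) (g₀ w)) ∈ l' := by
  intro gs
  induction gs with
  | nil => intro _; exact ⟨l, hl, fun _ h => h, by simp, by simpa using h₀⟩
  | cons g gs ih =>
    intro h
    obtain ⟨l', h1, h2, h3, h4⟩ := ih fun g' hg' => h g' (List.mem_cons_of_mem _ hg')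
    refine ⟨_, Prog.ad l' g _ h1 (h2 g (h g (by simp))) h4, fun f hf =>
      List.mem_cons_of_mem _ (h2 f hf), by simp [h3]; omega, ?_⟩
    simp

theorem load {l : List ((Ω → ℝ≥0∞) → ℝ≥0∞)} (hl : Prog l) : ∀ Ss : List Ω,
    ∃ l', Prog l' ∧ (∀ f ∈ l, f ∈ l') ∧ l'.length = l.length + Ss.length ∧
      ∀ S ∈ Ss, (fun w => w S) ∈ l' := by
  intro Ss
  induction Ss with
  | nil => exact ⟨l, hl, fun _ h => h, by simp, by simp⟩
  | cons S Ss ih =>
    obtain ⟨l', h1, h2, h3, h4⟩ := ih
    refine ⟨_, Prog.inp l' S h1, fun f hf => List.mem_cons_of_mem _ (h2 f hf),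
      by simp [h3]; omega, ?_⟩
    intro S' hS'
    rcases List.mem_cons.1 hS' with rfl | hS'
    · simp
    · exact List.mem_cons_of_mem _ (h4 S' hS')

end upper

section factor

variable {k n : ℕ}

/-- the least weight of a set which contains `u` -/
noncomputable def cov (u : Fin n) (w : KSet k n → ℝ≥0∞) : ℝ≥0∞ :=
  (univ.filter fun S : KSet k n => u ∈ S.1).inf w

theorem foldr_inf (w : KSet k n → ℝ≥0∞) (l : List (KSet k n)) :
    (l.map fun S (w : KSet k n → ℝ≥0∞) => w S).foldr (fun g a => min (g w) a) ⊤ =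
      l.toFinset.inf w := by
  classical
  induction l with
  | nil => simp
  | cons S l ih =>
    rw [List.map_cons, List.foldr_cons, ih, List.toFinset_cons, inf_insert]

theorem comp_covs {l : List ((KSet k n → ℝ≥0∞) → ℝ≥0∞)} (hl : Prog l)
    (htop : (fun _ => ⊤) ∈ l) (hin : ∀ S : KSet k n, (fun w => w S) ∈ l) : ∀ us : List (Fin n),
    ∃ l', Prog l' ∧ (∀ f ∈ l, f ∈ l') ∧
      l'.length = l.length +
        (us.map fun u => (univ.filter fun S : KSet k n => u ∈ S.1).card).sum ∧
      ∀ u ∈ us, cov u ∈ l' := by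
  classical
  intro us
  induction us with
  | nil => exact ⟨l, hl, fun _ h => h, by simp, by simp⟩
  | cons u us ih =>
    obtain ⟨l', h1, h2, h3, h4⟩ := ih
    obtain ⟨l'', h5, h6, h7, h8⟩ := fold_min h1 _ (h2 _ htop)
      ((univ.filter fun S : KSet k n => u ∈ S.1).toList.map fun S w => w S)
      (fun g hg => by
        obtain ⟨S, _, rfl⟩ := List.mem_map.1 hg
        exact h2 _ (hin S))
    refine ⟨l'', h5, fun f hf => h6 f (h2 f hf), ?_, ?_⟩
    · rw [h7, h3, List.length_map, length_toList, List.map_cons, List.sum_cons]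
      ring
    · intro u' hu'
      rcases List.mem_cons.1 hu' with rfl | hu'
      · have : (fun w => ((univ.filter fun S : KSet k n => u' ∈ S.1).toList.map
            fun S (w : KSet k n → ℝ≥0∞) => w S).foldr (fun g a => min (g w) a) ⊤) = cov u' := by
          funext w
          rw [foldr_inf, toList_toFinset, cov]
        rwa [this] at h8
      · exact h6 _ (h4 u' hu')

/-- the sum of the least weights -/
noncomputable def tot (w : KSet k n → ℝ≥0∞) : ℝ≥0∞ := ∑ u : Fin n, cov u w

theorem computes_tot :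
    Computes (tot : (KSet k n → ℝ≥0∞) → ℝ≥0∞) ((k + 1) * Fintype.card (KSet k n) + n + 2) := by
  classical
  obtain ⟨l₁, h1, h2, h3, h4⟩ := load (Ω := KSet k n)
    (Prog.cst _ ⊤ (Prog.cst _ 0 Prog.nil)) univ.toList
  obtain ⟨l₂, h5, h6, h7, h8⟩ := comp_covs h1 (h2 _ (by simp)) (fun S => h4 S (by simp))
    (univ : Finset (Fin n)).toList
  obtain ⟨l₃, h9, h10, h11, h12⟩ := fold_add h5 (fun _ => 0) (h6 _ (h2 _ (by simp)))
    ((univ : Finset (Fin n)).toList.map fun u => cov u)
    (fun g hg => by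
      obtain ⟨u, _, rfl⟩ := List.mem_map.1 hg
      exact h8 u (by simp))
  refine ⟨l₃, h9, ?_, ?_⟩
  · have : (fun w => ((univ : Finset (Fin n)).toList.map fun u => (cov u :
        (KSet k n → ℝ≥0∞) → ℝ≥0∞)).foldr (fun g a => g w + a) 0) = tot := by
      funext w
      have aux : ∀ us : List (Fin n), (us.map fun u => (cov u :
          (KSet k n → ℝ≥0∞) → ℝ≥0∞)).foldr (fun g a => g w + a) 0 =
          (us.map fun u => cov u w).sum := by
        intro us
        induction us with
        | nil => simp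
        | cons u us ih => rw [List.map_cons, List.foldr_cons, ih]; simp
      rw [aux, sum_map_toList, tot]
    rwa [this] at h12
  · have hsum : ((univ : Finset (Fin n)).toList.map fun u =>
        (univ.filter fun S : KSet k n => u ∈ S.1).card).sum = k * Fintype.card (KSet k n) := by
      rw [sum_map_toList]
      simp only [card_filter]
      rw [sum_comm]
      have : ∀ S : KSet k n, ∑ u : Fin n, (if u ∈ S.1 then 1 else 0) = k := by
        intro S
        rw [← card_filter]
        simp [S.2]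
      rw [sum_congr rfl fun S _ => this S, sum_const, card_univ, smul_eq_mul, mul_comm]
    rw [h11, h7, h3, hsum, List.length_map, length_toList, length_toList, card_univ, card_univ,
      Fintype.card_fin]
    simp
    ring_nf
    omega

theorem opt_le_tot (w : KSet k n → ℝ≥0∞) : opt w ≤ tot w := by
  classical
  by_cases h : ∃ u : Fin n, (univ.filter fun S : KSet k n => u ∈ S.1) = ∅
  · obtain ⟨u, hu⟩ := h
    have : tot w = ⊤ := by
      rw [tot, ENNReal.sum_eq_top]
      exact ⟨u, mem_univ _, by rw [cov, hu]; simp⟩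
    rw [this]
    exact le_top
  · push Not at h
    have h1 : ∀ u : Fin n, ∃ S ∈ univ.filter (fun S : KSet k n => u ∈ S.1), cov u w = w S := by
      intro u
      obtain ⟨S, hS, h2⟩ := exists_mem_eq_inf _ (h u) w
      exact ⟨S, hS, h2⟩
    choose S hS hSw using h1
    have hcov : Covers (univ.image S) := fun u =>
      ⟨S u, mem_image_of_mem _ (mem_univ _), (mem_filter.1 (hS u)).2⟩
    refine (iInf₂_le _ hcov).trans ?_
    rw [tot]
    calc ∑ T ∈ univ.image S, w T ≤ ∑ T ∈ univ.image S, ∑ u ∈ univ.filter (fun u => S u = T), w (S u) := by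
          refine sum_le_sum fun T hT => ?_
          obtain ⟨u, _, hu⟩ := mem_image.1 hT
          calc w T = w (S u) := by rw [hu]
            _ ≤ _ := single_le_sum (f := fun u => w (S u)) (fun _ _ => zero_le)
                (mem_filter.2 ⟨mem_univ _, hu⟩)
      _ = ∑ u, w (S u) := sum_fiberwise_of_maps_to (fun u _ => mem_image_of_mem _ (mem_univ _)) _
      _ = ∑ u, cov u w := sum_congr rfl fun u _ => (hSw u).symm

theorem tot_le_opt (hk : 0 < k) (w : KSet k n → ℝ≥0∞) : tot w ≤ k * opt w := by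
  classical
  rw [opt, ENNReal.mul_iInf_of_ne (by exact_mod_cast hk.ne') (by simp)]
  refine le_iInf fun F => ?_
  rw [ENNReal.mul_iInf_of_ne (by exact_mod_cast hk.ne') (by simp)]
  refine le_iInf fun hF => ?_
  have h1 : ∀ u : Fin n, cov u w ≤ ∑ S ∈ F, if u ∈ S.1 then w S else 0 := by
    intro u
    obtain ⟨S, hS, hu⟩ := hF u
    calc cov u w ≤ w S := inf_le (mem_filter.2 ⟨mem_univ _, hu⟩)
      _ = if u ∈ S.1 then w S else 0 := by rw [if_pos hu]
      _ ≤ _ := single_le_sum (f := fun S : KSet k n => if u ∈ S.1 then w S else 0)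
          (fun _ _ => zero_le) hS
  calc tot w ≤ ∑ u : Fin n, ∑ S ∈ F, (if u ∈ S.1 then w S else 0) :=
        sum_le_sum fun u _ => h1 u
    _ = ∑ S ∈ F, ∑ u : Fin n, (if u ∈ S.1 then w S else 0) := sum_comm
    _ = ∑ S ∈ F, k * w S := by
        refine sum_congr rfl fun S _ => ?_
        rw [← sum_filter, sum_const, nsmul_eq_mul]
        congr 2
        simp [S.2]
    _ = k * ∑ S ∈ F, w S := by rw [mul_sum]

end factor

end Pool.Agent.TH837.SC
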