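import Pool.Agent.TH837.SC.Low2

/-!
The asymptotic form of the lower bounds.
-/

set_option autoImplicit false

namespace Pool.Agent.TH837.SC

open Finset Filter
open scoped Nat ENNReal Topology

theorem ev_pow_lt (K : ℕ) {r : ℝ} (hr : 1 < r) : ∀ᶠ n : ℕ in atTop, ((n : ℝ) + 1) ^ K < r ^ n := by
  have h1 := tendsto_pow_const_div_const_pow_of_one_lt K hr
  have h2 : Tendsto (fun n : ℕ => (((n + 1 : ℕ) : ℝ)) ^ K / r ^ (n + 1)) atTop (𝓝 0) :=
    h1.comp (tendsto_add_atTop_nat 1)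
  have h3 : ∀ᶠ n : ℕ in atTop, (((n + 1 : ℕ) : ℝ)) ^ K / r ^ (n + 1) < r⁻¹ :=
    h2.eventually (gt_mem_nhds (by positivity))
  filter_upwards [h3] with n hn
  have hr0 : (0 : ℝ) < r := by linarith
  rw [div_lt_iff₀ (by positivity), pow_succ] at hn
  have : r⁻¹ * (r ^ n * r) = r ^ n := by field_simp
  rw [this] at hn
  simpa using hn

theorem two_rpow_eq (x : ℝ) (n : ℕ) : ((2 : ℝ) ^ x) ^ n = (2 : ℝ) ^ (x * n) := by
  rw [Real.rpow_mul (by norm_num), Real.rpow_natCast]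

theorem asy1 (ε : ℝ) (hε : 0 < ε) (k : ℕ) (hk : 24 / ε ≤ k) (A : ℕ) :
    ∃ M : ℕ, ∀ m ≥ M, ∀ n : ℕ, n = m * k → ∀ (L : List (Ins (KSet k n)))
      (Z : Finset ((Fin m × Fin k) ≃ Fin n)) (R : ℝ≥0∞), Req L Z R →
      R ≤ ENNReal.ofReal ((1 + ε / 16) * m) →
      (2 : ℝ) ^ (-(ε / 8 * n)) * (n ! : ℕ) ≤ Z.card →
      (2 : ℝ) ^ ((1 - ε) * n) * (Fintype.card (KSet k n) : ℝ) ^ A < L.length := by
  have hk0 : (0 : ℝ) < k := lt_of_lt_of_le (by positivity) hk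
  have hk1 : 1 ≤ k := by exact_mod_cast hk0
  have hr : (1 : ℝ) < 2 ^ (5 * ε / 8) := Real.one_lt_rpow (by norm_num) (by positivity)
  obtain ⟨M, hM⟩ := eventually_atTop.1 (ev_pow_lt (k * A + 1) hr)
  refine ⟨max M 2, fun m hm n hn L Z R hReq hR hZ => ?_⟩
  have hm2 : 2 ≤ m := le_trans (le_max_right _ _) hm
  have hmM : M ≤ m := le_trans (le_max_left _ _) hm
  have hnm : m ≤ n := by rw [hn]; exact Nat.le_mul_of_pos_right m hk1
  have hpow := hM n (hmM.trans hnm)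
  have hm0 : (0 : ℝ) < m := by
    have : 0 < m := by omega
    exact_mod_cast this
  have hn0 : (0 : ℝ) ≤ n := by positivity
  have hnr : (n : ℝ) = m * k := by rw [hn]; push_cast; ring
  set d := ⌊ε / 16 * m⌋₊ with hd
  have hd1 : (d : ℝ) ≤ ε / 16 * m := Nat.floor_le (by positivity)
  have hd2 : ε / 16 * m < d + 1 := Nat.lt_floor_add_one _
  have hRd : R < (m + d + 1 : ℕ) := by
    refine lt_of_le_of_lt hR ?_
    rw [← ENNReal.ofReal_natCast, ENNReal.ofReal_lt_ofReal_iff (by positivity)]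
    push_cast
    nlinarith
  have h1 := low1 hReq hn (by omega) hm2 hRd (q := (2 : ℝ) ^ (-(ε / 8 * n))) (by positivity) hZ
  -- the constants
  have e6 : (2 : ℝ) ^ m * 3 ^ m ≤ 2 ^ ((ε / 8) * n) := by
    calc (2 : ℝ) ^ m * 3 ^ m = 6 ^ m := by rw [← mul_pow]; norm_num
      _ ≤ 8 ^ m := pow_le_pow_left₀ (by norm_num) (by norm_num) _
      _ = (2 : ℝ) ^ ((3 : ℝ) * m) := by
          rw [← two_rpow_eq]; norm_num
      _ ≤ 2 ^ ((ε / 8) * n) := by
          apply Real.rpow_le_rpow_of_exponent_le (by norm_num)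
          rw [hnr]
          have : 24 ≤ ε * k := by
            rw [div_le_iff₀ hε] at hk; linarith
          nlinarith
  have e3 : (3 : ℝ) ^ (k * d) ≤ 2 ^ ((ε / 8) * n) := by
    calc (3 : ℝ) ^ (k * d) ≤ 4 ^ (k * d) := pow_le_pow_left₀ (by norm_num) (by norm_num) _
      _ = (2 : ℝ) ^ ((2 : ℝ) * (k * d : ℕ)) := by
          rw [← two_rpow_eq]; norm_num
      _ ≤ 2 ^ ((ε / 8) * n) := by
          apply Real.rpow_le_rpow_of_exponent_le (by norm_num)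
          rw [hnr]
          push_cast
          nlinarith
  have hlen : (0 : ℝ) ≤ L.length := by positivity
  have h2 : (2 : ℝ) ^ (-(ε / 8 * n)) * 2 ^ n ≤
      ((n : ℝ) + 1) * (L.length * (2 ^ ((ε / 8) * n) * 2 ^ ((ε / 8) * n))) := by
    refine h1.trans ?_
    gcongr
  have h3 : (2 : ℝ) ^ (-(ε / 8 * n)) * 2 ^ n = 2 ^ ((1 - 3 * ε / 8) * n) * 2 ^ ((ε / 8) * n) * 2 ^ ((ε / 8) * (n : ℝ)) := by
    rw [← Real.rpow_natCast 2 n, ← Real.rpow_add (by norm_num), ← Real.rpow_add (by norm_num),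
      ← Real.rpow_add (by norm_num)]
    congr 1
    ring
  rw [h3, mul_assoc] at h2
  have h4 : (2 : ℝ) ^ ((1 - 3 * ε / 8) * n) ≤ ((n : ℝ) + 1) * L.length := by
    have hpos : (0 : ℝ) < 2 ^ ((ε / 8) * n) * 2 ^ ((ε / 8) * (n : ℝ)) := by positivity
    rw [← mul_assoc ((n : ℝ) + 1)] at h2
    exact le_of_mul_le_mul_right h2 hpos
  -- the number of sets
  have hcard : (Fintype.card (KSet k n) : ℝ) ≤ ((n : ℝ) + 1) ^ k := by
    have h5 : Fintype.card (KSet k n) = n.choose k := by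
      rw [Fintype.card_finset_len, Fintype.card_fin]
    rw [h5]
    calc (n.choose k : ℝ) ≤ (n : ℝ) ^ k := by exact_mod_cast Nat.choose_le_pow n k
      _ ≤ _ := pow_le_pow_left₀ hn0 (by linarith) _
  have hpow' : ((n : ℝ) + 1) ^ (k * A + 1) < 2 ^ (5 * ε / 8 * n) := by
    rw [← two_rpow_eq]; exact hpow
  have h6 : (2 : ℝ) ^ ((1 - ε) * n) * (Fintype.card (KSet k n) : ℝ) ^ A * ((n : ℝ) + 1) <
      L.length * ((n : ℝ) + 1) := by
    calc (2 : ℝ) ^ ((1 - ε) * n) * (Fintype.card (KSet k n) : ℝ) ^ A * ((n : ℝ) + 1)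
        ≤ 2 ^ ((1 - ε) * n) * (((n : ℝ) + 1) ^ k) ^ A * ((n : ℝ) + 1) := by gcongr
      _ = 2 ^ ((1 - ε) * n) * ((n : ℝ) + 1) ^ (k * A + 1) := by
          rw [← pow_mul, mul_assoc, ← pow_succ]
      _ < 2 ^ ((1 - ε) * n) * 2 ^ (5 * ε / 8 * n) := by gcongr
      _ = 2 ^ ((1 - 3 * ε / 8) * n) := by
          rw [← Real.rpow_add (by norm_num)]
          congr 1
          ring
      _ ≤ _ := by rw [mul_comm (L.length : ℝ)]; exact h4
  exact lt_of_mul_lt_mul_right h6 (by positivity)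

theorem asy2 (k : ℕ) (ρ : ℝ) (hρ : 1 ≤ ρ) (hρk : ρ < k) : ∃ γ : ℝ, 0 < γ ∧ ∃ M : ℕ, ∀ m ≥ M,
    ∀ n : ℕ, n = m * k → ∀ (L : List (Ins (KSet k n)))
      (Z : Finset ((Fin m × Fin k) ≃ Fin n)) (R : ℝ≥0∞), Req L Z R →
      R ≤ ENNReal.ofReal (ρ * m) →
      (2 : ℝ) ^ (-(γ * n)) * (n ! : ℕ) ≤ Z.card → (2 : ℝ) ^ (γ * n) ≤ L.length := by
  have hk0 : (0 : ℝ) < k := by linarith
  have hk1 : 0 < k := by exact_mod_cast hk0
  obtain ⟨κ, hκ⟩ : ∃ κ : ℝ, κ = (ρ + k) / (2 * ρ) := ⟨_, rfl⟩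
  have hκ1 : 1 < κ := by rw [hκ, lt_div_iff₀ (by positivity)]; linarith
  have hκρ : κ * ρ = (ρ + k) / 2 := by rw [hκ]; field_simp
  obtain ⟨c, hc⟩ : ∃ c : ℝ, c = Real.exp (-(1 / (κ - 1))) := ⟨_, rfl⟩
  have hc0 : 0 < c := by rw [hc]; exact Real.exp_pos _
  have hκ0 : 0 < κ - 1 := by linarith
  have hc1 : c < 1 := by
    rw [hc, Real.exp_lt_one_iff]
    have : 0 < 1 / (κ - 1) := by positivity
    linarith
  have hcκ : Real.exp 1 * c ^ (κ - 1) ≤ 1 := by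
    rw [hc, ← Real.exp_mul, ← Real.exp_add]
    have : 1 + -(1 / (κ - 1)) * (κ - 1) = 0 := by field_simp; ring
    rw [this, Real.exp_zero]
  obtain ⟨η, hη⟩ : ∃ η : ℝ, η = (k - ρ) / (4 * (12 * ρ / c + 2)) := ⟨_, rfl⟩
  have hη0 : 0 < η := by rw [hη]; apply div_pos (by linarith); positivity
  obtain ⟨lam, hlam⟩ : ∃ lam : ℝ, lam = η / (κ - 1) := ⟨_, rfl⟩
  have hlam0 : 0 < lam := by rw [hlam]; positivity
  refine ⟨lam / (8 * k), by positivity, ?_⟩
  have hr : (1 : ℝ) < Real.exp (5 * lam / 8) := by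
    rw [Real.one_lt_exp_iff]; positivity
  obtain ⟨M₁, hM₁⟩ := eventually_atTop.1 (ev_pow_lt 5 hr)
  obtain ⟨M₂, hM₂⟩ := exists_nat_ge (2 / c)
  refine ⟨max M₁ (max M₂ 2), fun m hm n hn L Z R hReq hR hZ => ?_⟩
  have hmM₁ : M₁ ≤ m := le_trans (le_max_left _ _) hm
  have hmM₂ : M₂ ≤ m := le_trans (le_trans (le_max_left _ _) (le_max_right _ _)) hm
  have hm2 : 2 ≤ m := le_trans (le_trans (le_max_right _ _) (le_max_right _ _)) hm
  have hm0 : (0 : ℝ) < m := by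
    have : 0 < m := by omega
    exact_mod_cast this
  have hcm : 2 ≤ c * m := by
    have h1 : (M₂ : ℝ) ≤ m := by exact_mod_cast hmM₂
    have h2 := hM₂.trans h1
    rw [div_le_iff₀ hc0] at h2
    linarith
  set t := ⌊c * m⌋₊ with ht
  have ht1 : (t : ℝ) ≤ c * m := Nat.floor_le (by positivity)
  have ht2 : c * m < t + 1 := Nat.lt_floor_add_one _
  have ht3 : c * m / 2 ≤ t := by linarith
  have ht4 : 1 ≤ t := by
    have : (0 : ℝ) < t := by linarith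
    exact_mod_cast this
  have htpos : (0 : ℝ) < t := by exact_mod_cast ht4
  have hpar : κ * (ρ * m) + η * m * (6 * (ρ * m / t) + 2) < (n : ℝ) := by
    have h1 : ρ * m / t ≤ 2 * ρ / c := by
      rw [div_le_div_iff₀ htpos hc0]
      have : ρ * (c * m) ≤ ρ * (2 * t) := mul_le_mul_of_nonneg_left (by linarith) (by linarith)
      linarith
    have h2 : η * (6 * (ρ * m / t) + 2) ≤ (k - ρ) / 4 := by
      calc η * (6 * (ρ * m / t) + 2) ≤ η * (6 * (2 * ρ / c) + 2) := by gcongr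
        _ = η * (12 * ρ / c + 2) := by ring
        _ = (k - ρ) / 4 := by rw [hη]; field_simp
    have h3 : κ * (ρ * m) = (ρ + k) / 2 * m := by rw [← mul_assoc, hκρ]
    rw [h3, hn]
    push_cast
    nlinarith
  have h1 := low2 hReq hn hk1 (by omega) (by linarith) hR ht4 hc0 hc1.le hκ1.le
    (e := η * m) (by positivity) ht1 hcκ hpar hZ
  have h2 : c ^ (η * m) = Real.exp (-(lam * m)) := by
    rw [hc, ← Real.exp_mul]
    congr 1
    rw [hlam]
    field_simp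
  rw [h2] at h1
  have hγ : lam / (8 * k) * (n : ℝ) = lam * m / 8 := by
    rw [hn]
    push_cast
    field_simp
  rw [hγ] at h1
  rw [hγ]
  have hlog : Real.log 2 < 1 := by
    have := Real.log_two_lt_d9; linarith
  have hlog0 : 0 < Real.log 2 := Real.log_pos (by norm_num)
  have h3 : Real.exp (-(lam * m / 8)) ≤ (2 : ℝ) ^ (-(lam * m / 8)) := by
    rw [Real.rpow_def_of_pos (by norm_num), Real.exp_le_exp]
    have : 0 ≤ lam * m / 8 := by positivity
    nlinarith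
  have h4 : (2 : ℝ) ^ (lam * m / 8) ≤ Real.exp (lam * m / 8) := by
    rw [Real.rpow_def_of_pos (by norm_num), Real.exp_le_exp]
    have : 0 ≤ lam * m / 8 := by positivity
    nlinarith
  by_contra hlt
  rw [not_le] at hlt
  have hE1 : 1 ≤ Real.exp (lam * m / 8) := Real.one_le_exp (by positivity)
  have h5 : ((L.length : ℝ) + 2) ^ 2 ≤ 9 * Real.exp (lam * m / 8) ^ 2 := by
    have : (L.length : ℝ) + 2 ≤ 3 * Real.exp (lam * m / 8) := by linarith
    calc ((L.length : ℝ) + 2) ^ 2 ≤ (3 * Real.exp (lam * m / 8)) ^ 2 :=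
          pow_le_pow_left₀ (by positivity) this 2
      _ = _ := by ring
  have h6 : Real.exp (-(lam * m / 8)) ≤
      9 * Real.exp (lam * m / 8) ^ 2 * (m + 1) * Real.exp (-(lam * m)) := by
    refine h3.trans (h1.trans ?_)
    gcongr
  have h7 : Real.exp (5 * lam / 8) ^ m ≤ 9 * (m + 1) := by
    have e1 : Real.exp (5 * lam / 8) ^ m = Real.exp (5 * (lam * m / 8)) := by
      rw [← Real.exp_nat_mul]; congr 1; ring
    have e2 : Real.exp (lam * m / 8) ^ 2 = Real.exp (2 * (lam * m / 8)) := by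
      rw [← Real.exp_nat_mul]; congr 1
    have e3 : Real.exp (-(lam * m)) = Real.exp (-(8 * (lam * m / 8))) := by congr 1; ring
    rw [e2, e3] at h6
    rw [e1]
    obtain ⟨z, hz⟩ : ∃ z : ℝ, z = lam * m / 8 := ⟨_, rfl⟩
    rw [← hz] at h6 ⊢
    have h8 := mul_le_mul_of_nonneg_right h6 (Real.exp_pos (6 * z)).le
    rw [← Real.exp_add] at h8
    have e4 : 9 * Real.exp (2 * z) * (m + 1) * Real.exp (-(8 * z)) * Real.exp (6 * z) =
        9 * (m + 1) * (Real.exp (2 * z) * Real.exp (-(8 * z)) * Real.exp (6 * z)) := by ring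
    rw [e4, ← Real.exp_add, ← Real.exp_add] at h8
    have e5 : 2 * z + -(8 * z) + 6 * z = 0 := by ring
    have e6 : -z + 6 * z = 5 * z := by ring
    rw [e5, e6, Real.exp_zero, mul_one] at h8
    exact h8
  have h8 := hM₁ m hmM₁
  have h9 : 9 * ((m : ℝ) + 1) ≤ ((m : ℝ) + 1) ^ 5 := by
    have h10 : (2 : ℝ) ≤ m := by exact_mod_cast hm2
    have h11 : (3 : ℝ) ^ 2 ≤ ((m : ℝ) + 1) ^ 2 := pow_le_pow_left₀ (by norm_num) (by linarith) 2
    have h12 : (1 : ℝ) ≤ ((m : ℝ) + 1) ^ 2 := one_le_pow₀ (by linarith)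
    calc 9 * ((m : ℝ) + 1) ≤ ((m : ℝ) + 1) ^ 2 * ((m : ℝ) + 1) ^ 2 * ((m : ℝ) + 1) := by
          have : 9 ≤ ((m : ℝ) + 1) ^ 2 * ((m : ℝ) + 1) ^ 2 := by nlinarith
          exact mul_le_mul_of_nonneg_right this (by positivity)
      _ = _ := by ring
  linarith

end Pool.Agent.TH837.SC
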