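import Mathlib

/-!
Counting random partitions.
-/

set_option autoImplicit false

namespace Pool.Agent.TH837.SC

open Finset
open scoped Nat

theorem card_col {A B C : Type} [Fintype A] [Fintype B] [Fintype C] [DecidableEq A]
    [DecidableEq B] [DecidableEq C] (χ : B → C) (ft : A → C) :
    ((univ : Finset (A ≃ B)).filter fun σ : A ≃ B => χ ∘ σ = ft).card ≤
      ∏ c, (Fintype.card {b // χ b = c})! := by
  rw [← DomMulAct.stabilizer_card]
  rcases ((univ : Finset (A ≃ B)).filter fun σ : A ≃ B => χ ∘ σ = ft).eq_empty_or_nonempty with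
    h | ⟨σ₀, h0⟩
  · rw [h]; simp
  · rw [mem_filter] at h0
    rw [Fintype.card_subtype]
    refine card_le_card_of_injOn (fun σ => σ₀.symm.trans σ) ?_ ?_
    · intro σ hσ
      have hσ' : χ ∘ σ = ft := by simpa using hσ
      have : χ ∘ (σ₀.symm.trans σ) = χ := by
        funext b
        have h1 := congrFun hσ' (σ₀.symm b)
        have h2 := congrFun h0.2 (σ₀.symm b)
        simp only [Function.comp_apply, Equiv.apply_symm_apply] at h1 h2
        simp only [Function.comp_apply, Equiv.trans_apply]
        rw [h1, h2]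
      simpa using this
    · intro σ _ τ _ h
      ext a
      have := congrArg (fun f => f (σ₀ a)) h
      simpa using this

theorem fact_shift (x : ℕ) : ∀ c d : ℕ, c ≤ d → d ! * (c + x)! ≤ (d + x)! * c ! := by
  induction x with
  | zero => intro c d _; simp
  | succ x ih =>
    intro c d h
    have h1 := ih c d h
    have h2 : c + x + 1 ≤ d + x + 1 := by omega
    calc d ! * (c + (x + 1))! = (d ! * (c + x)!) * (c + x + 1) := by
          rw [← add_assoc, Nat.factorial_succ]; ring
      _ ≤ ((d + x)! * c !) * (d + x + 1) := Nat.mul_le_mul h1 h2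
      _ = (d + (x + 1))! * c ! := by rw [← add_assoc, Nat.factorial_succ]; ring

theorem fact_two {a b h : ℕ} (ha : a ≤ h) (hb : b ≤ h) (hab : h ≤ a + b) :
    a ! * b ! ≤ h ! * (a + b - h)! := by
  have h1 := fact_shift (h - a) (a + b - h) a (by omega)
  rwa [show a + b - h + (h - a) = b by omega, show a + (h - a) = h by omega] at h1

theorem fact_three {a b c h n : ℕ} (ha : a ≤ h) (hb : b ≤ h) (hc : c ≤ h) (hn : a + b + c = n)
    (hh : h ≤ n) : a ! * b ! * c ! ≤ h ! * (n - h)! := by
  by_cases hab : h ≤ a + b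
  · have h1 := fact_two ha hb hab
    have h2 : (a + b - h)! * c ! ≤ (n - h)! := by
      have := Nat.factorial_mul_factorial_dvd_factorial_add (a + b - h) c
      rw [show a + b - h + c = n - h by omega] at this
      exact Nat.le_of_dvd (Nat.factorial_pos _) this
    calc a ! * b ! * c ! ≤ h ! * (a + b - h)! * c ! := Nat.mul_le_mul_right _ h1
      _ = h ! * ((a + b - h)! * c !) := by ring
      _ ≤ _ := Nat.mul_le_mul_left _ h2
  · have h1 : a ! * b ! ≤ (a + b)! :=
      Nat.le_of_dvd (Nat.factorial_pos _) (Nat.factorial_mul_factorial_dvd_factorial_add a b)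
    have h2 := fact_two (show a + b ≤ h by omega) hc (by omega)
    rw [hn] at h2
    exact (Nat.mul_le_mul_right _ h1).trans h2

theorem two_pow_le_choose (n : ℕ) : 2 ^ n ≤ (n + 1) * n.choose ((n + 1) / 2) := by
  have h1 : n.choose ((n + 1) / 2) = n.choose (n / 2) := by
    rw [← Nat.choose_symm (show n / 2 ≤ n by omega)]
    congr 1
    omega
  rw [h1, ← Nat.sum_range_choose n]
  calc ∑ m ∈ range (n + 1), n.choose m ≤ ∑ _m ∈ range (n + 1), n.choose (n / 2) :=
        sum_le_sum fun m _ => Nat.choose_le_middle m n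
    _ = _ := by simp

/-- the colour patterns with all but `d` rows constant -/
def Pat (m k d : ℕ) : Finset (Fin m × Fin k → Fin 3) :=
  univ.filter fun ft => ∃ E : Finset (Fin m), E.card ≤ d ∧ ∀ i, i ∉ E → ∀ t t', ft (i, t) = ft (i, t')

theorem card_pat {m k : ℕ} (d : ℕ) (hk : 0 < k) :
    (Pat m k d).card ≤ 2 ^ m * 3 ^ m * 3 ^ (k * d) := by
  classical
  obtain ⟨k, rfl⟩ : ∃ k', k = k' + 1 := ⟨k - 1, by omega⟩
  let PE : Finset (Fin m) → Finset (Fin m × Fin (k + 1) → Fin 3) := fun E =>
    univ.filter fun ft => ∀ i, i ∉ E → ∀ t t', ft (i, t) = ft (i, t')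
  have h1 : Pat m (k + 1) d ⊆ (univ.filter fun E : Finset (Fin m) => E.card ≤ d).biUnion PE := by
    intro ft hft
    simp only [Pat, mem_filter, mem_univ, true_and] at hft
    obtain ⟨E, hE, h⟩ := hft
    simp only [mem_biUnion, mem_filter, mem_univ, true_and, PE]
    exact ⟨E, hE, h⟩
  have h2 : ∀ E ∈ univ.filter (fun E : Finset (Fin m) => E.card ≤ d),
      (PE E).card ≤ 3 ^ m * 3 ^ ((k + 1) * d) := by
    intro E hE
    simp only [mem_filter, mem_univ, true_and] at hE
    calc (PE E).card ≤
        (univ : Finset ((Fin m → Fin 3) × (E × Fin (k + 1) → Fin 3))).card := by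
          refine card_le_card_of_injOn
            (fun ft => (fun i => ft (i, 0), fun x => ft (x.1.1, x.2))) (by intro _ _; simp) ?_
          intro ft hft fs hfs h
          simp only [PE, coe_filter, mem_univ, true_and, Set.mem_ofPred_eq] at hft hfs
          simp only [Prod.mk.injEq] at h
          funext x
          obtain ⟨i, t⟩ := x
          by_cases hi : i ∈ E
          · exact congrFun h.2 (⟨i, hi⟩, t)
          · rw [hft i hi t 0, hfs i hi t 0]
            exact congrFun h.1 i
      _ = 3 ^ m * 3 ^ (E.card * (k + 1)) := by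
          simp [Fintype.card_prod]
      _ ≤ 3 ^ m * 3 ^ ((k + 1) * d) := by
          refine Nat.mul_le_mul_left _ (Nat.pow_le_pow_right (by norm_num) ?_)
          rw [mul_comm]
          exact Nat.mul_le_mul_left _ hE
  calc (Pat m (k + 1) d).card ≤ _ := card_le_card h1
    _ ≤ ∑ E ∈ univ.filter (fun E : Finset (Fin m) => E.card ≤ d), (PE E).card := card_biUnion_le
    _ ≤ ∑ _E ∈ univ.filter (fun E : Finset (Fin m) => E.card ≤ d),
        3 ^ m * 3 ^ ((k + 1) * d) := sum_le_sum h2
    _ ≤ ∑ _E : Finset (Fin m), 3 ^ m * 3 ^ ((k + 1) * d) :=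
        sum_le_sum_of_subset (filter_subset _ _)
    _ = _ := by simp [mul_assoc]

theorem choose_ratio {a b : ℕ} (hab : a ≤ b) (y : ℕ) :
    a.choose y * b ^ y ≤ b.choose y * a ^ y := by
  have h : a.descFactorial y * b ^ y ≤ b.descFactorial y * a ^ y := by
    induction y with
    | zero => simp
    | succ y ih =>
      rw [Nat.descFactorial_succ, Nat.descFactorial_succ, pow_succ, pow_succ]
      have h1 : (a - y) * b ≤ (b - y) * a := by
        rcases le_total a y with h | h
        · rw [Nat.sub_eq_zero_of_le h]; simp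
        · zify [h, h.trans hab]
          nlinarith [(by exact_mod_cast hab : (a : ℤ) ≤ b), (by positivity : (0 : ℤ) ≤ y)]
      calc (a - y) * a.descFactorial y * (b ^ y * b)
          = (a.descFactorial y * b ^ y) * ((a - y) * b) := by ring
        _ ≤ (b.descFactorial y * a ^ y) * ((b - y) * a) := Nat.mul_le_mul ih h1
        _ = _ := by ring
  rw [Nat.descFactorial_eq_factorial_mul_choose, Nat.descFactorial_eq_factorial_mul_choose,
    mul_assoc, mul_assoc] at h
  exact Nat.le_of_mul_le_mul_left h (Nat.factorial_pos y)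

theorem choose_exp {m : ℕ} (hm : 0 < m) (j : ℕ) :
    (m.choose j : ℝ) * ((j : ℝ) / m) ^ j ≤ Real.exp j := by
  have hm' : (0 : ℝ) < m := by exact_mod_cast hm
  have hx : (0 : ℝ) ≤ (j : ℝ) / m := by positivity
  have h1 : ((j : ℝ) / m) ^ j * (m.choose j : ℝ) ≤ ((j : ℝ) / m + 1) ^ m := by
    rcases le_or_gt j m with hj | hj
    · rw [add_pow]
      have := single_le_sum (f := fun i => ((j : ℝ) / m) ^ i * 1 ^ (m - i) * (m.choose i : ℝ))
        (fun i _ => by positivity) (mem_range.2 (Nat.lt_succ_of_le hj))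
      simpa using this
    · rw [Nat.choose_eq_zero_of_lt hj]
      simp only [Nat.cast_zero, mul_zero]
      positivity
  have h2 : ((j : ℝ) / m + 1) ^ m ≤ Real.exp j := by
    calc ((j : ℝ) / m + 1) ^ m ≤ (Real.exp ((j : ℝ) / m)) ^ m :=
          pow_le_pow_left₀ (by positivity) (Real.add_one_le_exp _) m
      _ = Real.exp j := by
          rw [← Real.exp_nat_mul]
          congr 1
          field_simp
  rw [mul_comm]
  exact h1.trans h2

/-- the numerical estimate -/
theorem choose_bound {m k j y n : ℕ} {κ c e : ℝ} (hn : n = m * k) (hm : 0 < m) (hk : 0 < k)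
    (hc : 0 < c) (hc1 : c ≤ 1) (hκ : 1 ≤ κ) (he : 0 ≤ e)
    (hjc : (j : ℝ) ≤ c * m) (hcκ : Real.exp 1 * c ^ (κ - 1) ≤ 1) (hy : κ * j + e < y) :
    (m.choose j : ℝ) * (j * k).choose y ≤ c ^ e * n.choose y := by
  have hm' : (0 : ℝ) < m := by exact_mod_cast hm
  have hk' : (0 : ℝ) < k := by exact_mod_cast hk
  have hjm : (j : ℝ) ≤ m := hjc.trans (by nlinarith)
  have hjm' : j ≤ m := by exact_mod_cast hjm
  have hj0 : (0 : ℝ) ≤ j := by positivity
  have hyj : (j : ℝ) ≤ y := by nlinarith
  have hyj' : j ≤ y := by exact_mod_cast hyj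
  -- ratio
  have h1 : ((j * k).choose y : ℝ) ≤ n.choose y * ((j : ℝ) / m) ^ y := by
    have := choose_ratio (show j * k ≤ m * k from Nat.mul_le_mul_right _ hjm') y
    have h2 : ((j * k).choose y : ℝ) * ((m : ℝ) * k) ^ y ≤
        (m * k).choose y * ((j : ℝ) * k) ^ y := by exact_mod_cast this
    have h3 : (0 : ℝ) < ((m : ℝ) * k) ^ y := by positivity
    rw [hn]
    rw [← le_div_iff₀ h3, mul_div_assoc, ← div_pow, mul_div_mul_right _ _ hk'.ne'] at h2
    exact h2
  have h2 : ((j : ℝ) / m) ^ y = ((j : ℝ) / m) ^ j * ((j : ℝ) / m) ^ (y - j) := by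
    rw [← pow_add]; congr 1; omega
  have h3 : ((j : ℝ) / m) ^ (y - j) ≤ c ^ ((κ - 1) * j + e) := by
    have h4 : (j : ℝ) / m ≤ c := by rwa [div_le_iff₀ hm']
    calc ((j : ℝ) / m) ^ (y - j) ≤ c ^ (y - j) := pow_le_pow_left₀ (by positivity) h4 _
      _ = c ^ ((y - j : ℕ) : ℝ) := (Real.rpow_natCast _ _).symm
      _ ≤ c ^ ((κ - 1) * j + e) := by
          refine Real.rpow_le_rpow_of_exponent_ge hc hc1 ?_
          rw [Nat.cast_sub hyj']
          linarith
  have h4 : c ^ ((κ - 1) * j + e) = (c ^ (κ - 1)) ^ j * c ^ e := by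
    rw [Real.rpow_add hc, Real.rpow_mul hc.le, Real.rpow_natCast]
  have h5 := choose_exp hm j
  have h6 : Real.exp j * (c ^ (κ - 1)) ^ j ≤ 1 := by
    have : Real.exp j = Real.exp 1 ^ j := by rw [← Real.exp_nat_mul]; simp
    rw [this, ← mul_pow]
    exact pow_le_one₀ (by positivity) hcκ
  calc (m.choose j : ℝ) * (j * k).choose y
      ≤ m.choose j * (n.choose y * (((j : ℝ) / m) ^ j * ((j : ℝ) / m) ^ (y - j))) := by
        rw [← h2]
        exact mul_le_mul_of_nonneg_left h1 (by positivity)
    _ = (m.choose j * ((j : ℝ) / m) ^ j) * ((j : ℝ) / m) ^ (y - j) * n.choose y := by ring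
    _ ≤ Real.exp j * ((c ^ (κ - 1)) ^ j * c ^ e) * n.choose y := by
        rw [← h4]
        gcongr
    _ = (Real.exp j * (c ^ (κ - 1)) ^ j) * (c ^ e * n.choose y) := by ring
    _ ≤ 1 * (c ^ e * n.choose y) := by
        apply mul_le_mul_of_nonneg_right h6
        positivity
    _ = _ := one_mul _

/-- the bijections for which `Y` lies in `j` rows -/
theorem card_rows {m k n : ℕ} (Y : Finset (Fin n)) (j : ℕ) :
    ((univ : Finset ((Fin m × Fin k) ≃ Fin n)).filter fun σ =>
      ∃ J : Finset (Fin m), J.card = j ∧ ∀ x, σ x ∈ Y → x.1 ∈ J).card ≤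
      m.choose j * (j * k).choose Y.card * (Y.card ! * (n - Y.card)!) := by
  classical
  let χ : Fin n → Bool := fun u => decide (u ∈ Y)
  let R : Finset (Fin m × Fin k → Bool) := (powersetCard j (univ : Finset (Fin m))).biUnion
    fun J => (powersetCard Y.card (J ×ˢ (univ : Finset (Fin k)))).image
      fun T x => decide (x ∈ T)
  have hR : R.card ≤ m.choose j * (j * k).choose Y.card := by
    calc R.card ≤ ∑ J ∈ powersetCard j (univ : Finset (Fin m)),
          ((powersetCard Y.card (J ×ˢ (univ : Finset (Fin k)))).image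
            fun T (x : Fin m × Fin k) => decide (x ∈ T)).card := card_biUnion_le
      _ ≤ ∑ J ∈ powersetCard j (univ : Finset (Fin m)), (j * k).choose Y.card := by
          refine sum_le_sum fun J hJ => card_image_le.trans ?_
          rw [card_powersetCard, card_product, card_univ, Fintype.card_fin,
            (mem_powersetCard.1 hJ).2]
      _ = _ := by
          rw [sum_const, card_powersetCard, card_univ, Fintype.card_fin, smul_eq_mul]
  have hsub : ((univ : Finset ((Fin m × Fin k) ≃ Fin n)).filter fun σ =>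
      ∃ J : Finset (Fin m), J.card = j ∧ ∀ x, σ x ∈ Y → x.1 ∈ J) ⊆
      R.biUnion fun ft => univ.filter fun σ : (Fin m × Fin k) ≃ Fin n => χ ∘ σ = ft := by
    intro σ hσ
    simp only [mem_filter, mem_univ, true_and] at hσ
    obtain ⟨J, hJ, h⟩ := hσ
    simp only [mem_biUnion, mem_filter, mem_univ, true_and, R, mem_image, mem_powersetCard,
      subset_univ]
    refine ⟨χ ∘ σ, ⟨J, hJ, Y.map σ.symm.toEmbedding, ⟨?_, card_map _⟩, ?_⟩, rfl⟩
    · intro x hx
      rw [mem_map] at hx
      obtain ⟨u, hu, rfl⟩ := hx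
      rw [mem_product]
      exact ⟨h _ (by simpa using hu), mem_univ _⟩
    · funext x
      simp only [χ, Function.comp_apply, mem_map, Equiv.coe_toEmbedding]
      congr 1
      apply propext
      constructor
      · rintro ⟨u, hu, rfl⟩
        simpa using hu
      · intro hx
        exact ⟨σ x, hx, by simp⟩
  calc _ ≤ _ := card_le_card hsub
    _ ≤ ∑ ft ∈ R, (univ.filter fun σ : (Fin m × Fin k) ≃ Fin n => χ ∘ σ = ft).card :=
        card_biUnion_le
    _ ≤ ∑ _ft ∈ R, (Y.card ! * (n - Y.card)!) := by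
        refine sum_le_sum fun ft _ => (card_col χ ft).trans (le_of_eq ?_)
        rw [Fintype.prod_bool]
        have h1 : Fintype.card {b // χ b = true} = Y.card := by
          simp [χ]
        have h2 : Fintype.card {b // χ b = false} = n - Y.card := by
          have : Fintype.card {b // χ b = false} = (Yᶜ).card := by
            rw [Fintype.card_subtype]
            congr 1
            ext b
            simp [χ]
          rw [this, card_compl, Fintype.card_fin]
        rw [h1, h2]
    _ = R.card * (Y.card ! * (n - Y.card)!) := by rw [sum_const, smul_eq_mul]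
    _ ≤ _ := Nat.mul_le_mul_right _ hR

end Pool.Agent.TH837.SC
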