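import Pool.Agent.TH837.SC.Circ
import Pool.Agent.TH837.SC.Count

/-!
Lower bounds for (min,+) programs which approximate set cover.
-/

set_option autoImplicit false

namespace Pool.Agent.TH837.SC

open Finset
open scoped Nat ENNReal

/-- the sets with `k` elements -/
abbrev KSet (k n : ℕ) : Type := {S : Finset (Fin n) // S.card = k}

section

variable {m k n : ℕ}

/-- the blocks of a partition -/
def blk (σ : (Fin m × Fin k) ≃ Fin n) (i : Fin m) : KSet k n :=
  ⟨univ.image fun t => σ (i, t), by
    rw [card_image_of_injective _ (fun t t' h => by simpa using h), card_univ, Fintype.card_fin]⟩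

theorem mem_blk {σ : (Fin m × Fin k) ≃ Fin n} {i : Fin m} {u : Fin n} :
    u ∈ (blk σ i).1 ↔ (σ.symm u).1 = i := by
  simp only [blk, mem_image, mem_univ, true_and]
  constructor
  · rintro ⟨t, rfl⟩; simp
  · intro h
    exact ⟨(σ.symm u).2, by rw [← h]; simp⟩

theorem blk_inj (hk : 0 < k) (σ : (Fin m × Fin k) ≃ Fin n) : Function.Injective (blk σ) := by
  intro i i' h
  have h1 : σ (i, ⟨0, hk⟩) ∈ (blk σ i).1 := mem_blk.2 (by simp)
  rw [h, mem_blk] at h1
  simpa using h1

/-- the map from sets to their elements -/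
abbrev el (k n : ℕ) : KSet k n → Finset (Fin n) := Subtype.val

/-- the requirements on a program: a finite value means that the family covers everything, and the
value for the partitions of `Z` is at most `R` -/
structure Req (L : List (Ins (KSet k n))) (Z : Finset ((Fin m × Fin k) ≃ Fin n)) (R : ℝ≥0∞) :
    Prop where
  sound : ∀ F : Set (KSet k n), val L (wt F) ≠ ⊤ → ∀ u, ∃ S ∈ F, u ∈ S.1
  bound : ∀ σ ∈ Z, val L (wt (Set.range (blk σ))) ≤ R

variable {Z : Finset ((Fin m × Fin k) ≃ Fin n)}

theorem Req.covers {L : List (Ins (KSet k n))} {R : ℝ≥0∞} (h : Req L Z R) {p : Multiset (KSet k n)}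
    (hp : P L p) (u : Fin n) : ∃ S ∈ p, u ∈ S.1 := by
  obtain ⟨c, hc, h1⟩ := val_le hp
  have h2 := h1 (wt {S | S ∈ p})
  rw [sum_wt_of_mem (by intro S hS; exact hS)] at h2
  have h3 : val L (wt {S | S ∈ p}) ≠ ⊤ :=
    ne_top_of_le_ne_top (by simp [hc]) h2
  obtain ⟨S, hS, h4⟩ := h.sound _ h3 u
  exact ⟨S, hS, h4⟩

theorem Req.X_eq {L : List (Ins (KSet k n))} {R : ℝ≥0∞} (h : Req L Z R) :
    X (el k n) L = univ := by
  rw [eq_univ_iff_forall]
  intro u
  rw [mem_X]
  intro p hp
  exact h.covers hp u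

theorem Req.mono {L : List (Ins (KSet k n))} {R : ℝ≥0∞} (h : Req L Z R) (hR : R ≠ ⊤)
    (σ : (Fin m × Fin k) ≃ Fin n) (hσ : σ ∈ Z) :
    ∃ p, P L p ∧ (∀ S ∈ p, S ∈ Set.range (blk σ)) ∧ (p.card : ℝ≥0∞) ≤ R := by
  have h1 := h.bound σ hσ
  obtain ⟨p, hp, h2⟩ := le_val L _ (ne_top_of_le_ne_top hR h1)
  have h3 := mem_of_sum_wt (ne_top_of_le_ne_top hR (h2.trans h1))
  refine ⟨p, hp, h3, ?_⟩
  rw [sum_wt_of_mem h3] at h2
  exact h2.trans h1

open Classical in
/-- the colouring of a gate -/
noncomputable def col : List (Ins (KSet k n)) → Fin n → Fin 3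
  | .ad i j :: v, u => if u ∈ X (el k n) (v.drop i) then 0 else
      if u ∈ X (el k n) (v.drop j) then 1 else 2
  | _, _ => 0

open Classical in
/-- all but few rows are constant -/
theorem col_pat {L : List (Ins (KSet k n))} {R : ℝ≥0∞} (h : Req L Z R) (hk : 0 < k) {d : ℕ}
    (σ : (Fin m × Fin k) ≃ Fin n) {p : Multiset (KSet k n)} (hp : P L p)
    (hpσ : ∀ S ∈ p, S ∈ Set.range (blk σ)) (hcard : p.card ≤ m + d)
    {i j : ℕ} {v : List (Ins (KSet k n))} {s a b : Multiset (KSet k n)}
    (hc : Ctx L (.ad i j :: v) s) (ha : P (v.drop i) a) (hb : P (v.drop j) b)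
    (hsum : p = s + a + b) :
    col (.ad i j :: v) ∘ σ ∈ Pat m k d := by
  have hcount : ∀ r : Fin m, 1 ≤ p.count (blk σ r) := by
    intro r
    rw [Multiset.one_le_count_iff_mem]
    obtain ⟨S, hS, h1⟩ := h.covers hp (σ (r, ⟨0, hk⟩))
    obtain ⟨r', rfl⟩ := hpσ S hS
    rw [mem_blk] at h1
    simp only [Equiv.symm_apply_apply] at h1
    rwa [h1]
  -- a block which contains a point of row `r` is block `r`
  have huniq : ∀ (q : Multiset (KSet k n)), q ≤ p → ∀ (r : Fin m) (t : Fin k),
      (∃ S ∈ q, σ (r, t) ∈ (el k n) S) → 1 ≤ q.count (blk σ r) := by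
    intro q hq r t hS
    obtain ⟨S, hS, h1⟩ := hS
    obtain ⟨r', rfl⟩ := hpσ S (Multiset.mem_of_le hq hS)
    have h1' : σ (r, t) ∈ (blk σ r').1 := h1
    rw [mem_blk] at h1'
    simp only [Equiv.symm_apply_apply] at h1'
    rw [Multiset.one_le_count_iff_mem, h1']
    exact hS
  simp only [Pat, mem_filter, mem_univ, true_and]
  refine ⟨univ.filter fun r => 2 ≤ p.count (blk σ r), ?_, ?_⟩
  · have h1 : ∑ r : Fin m, p.count (blk σ r) ≤ p.card := by
      have h2 : ∑ r : Fin m, p.count (blk σ r) = ∑ x ∈ univ.map ⟨blk σ, blk_inj hk σ⟩,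
          p.count x := by
        rw [sum_map]; rfl
      rw [h2, Multiset.sum_count_eq_card]
      intro S hS
      obtain ⟨r, hr⟩ := hpσ S hS
      rw [mem_map]
      exact ⟨r, mem_univ _, hr⟩
    have h2 : ∑ r : Fin m, (1 + if 2 ≤ p.count (blk σ r) then 1 else 0) ≤
        ∑ r : Fin m, p.count (blk σ r) := by
      refine sum_le_sum fun r _ => ?_
      have := hcount r
      split_ifs <;> omega
    rw [sum_add_distrib, sum_const, card_univ, Fintype.card_fin, smul_eq_mul, mul_one,
      ← card_filter] at h2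
    omega
  · intro r hr t t'
    simp only [mem_filter, mem_univ, true_and, not_le] at hr
    have h1 : p.count (blk σ r) = 1 := by have := hcount r; omega
    rw [hsum, Multiset.count_add, Multiset.count_add] at h1
    have hsle : s ≤ p := by rw [hsum, add_assoc]; exact Multiset.le_add_right _ _
    have hale : a ≤ p := by
      rw [hsum, add_assoc, add_left_comm]; exact Multiset.le_add_right _ _
    have hble : b ≤ p := by rw [hsum]; exact Multiset.le_add_left _ _
    have hsb : s + b ≤ p := by
      rw [hsum, add_right_comm]; exact Multiset.le_add_right _ _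
    have hsa : s + a ≤ p := by
      rw [hsum]; exact Multiset.le_add_right _ _
    -- membership of the points of the row
    have hXi : ∀ t, σ (r, t) ∈ X (el k n) (v.drop i) → 1 ≤ a.count (blk σ r) := fun t ht =>
      huniq a hale r t ((mem_X _).1 ht a ha)
    have hXj : ∀ t, σ (r, t) ∈ X (el k n) (v.drop j) → 1 ≤ b.count (blk σ r) := fun t ht =>
      huniq b hble r t ((mem_X _).1 ht b hb)
    have hXL : ∀ t, σ (r, t) ∈ X (el k n) L := fun t => by rw [h.X_eq]; exact mem_univ _
    have hXi' : ∀ t, σ (r, t) ∉ X (el k n) (v.drop i) →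
        1 ≤ s.count (blk σ r) + b.count (blk σ r) := fun t ht => by
      have := huniq (s + b) hsb r t (X_ctx _ (hc.adL i j v s b hb) (hXL t) ht)
      rwa [Multiset.count_add] at this
    have hXj' : ∀ t, σ (r, t) ∉ X (el k n) (v.drop j) →
        1 ≤ s.count (blk σ r) + a.count (blk σ r) := fun t ht => by
      have := huniq (s + a) hsa r t (X_ctx _ (hc.adR i j v s a ha) (hXL t) ht)
      rwa [Multiset.count_add] at this
    simp only [Function.comp_apply, col]
    rcases Nat.lt_or_ge 0 (a.count (blk σ r)) with h2 | h2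
    · have h3 : ∀ t, σ (r, t) ∈ X (el k n) (v.drop i) := fun t => by
        by_contra h4
        have := hXi' t h4
        omega
      rw [if_pos (h3 t), if_pos (h3 t')]
    · have h3 : ∀ t, σ (r, t) ∉ X (el k n) (v.drop i) := fun t h4 => by
        have := hXi t h4
        omega
      rw [if_neg (h3 t), if_neg (h3 t')]
      rcases Nat.lt_or_ge 0 (b.count (blk σ r)) with h5 | h5
      · have h6 : ∀ t, σ (r, t) ∈ X (el k n) (v.drop j) := fun t => by
          by_contra h4
          have := hXj' t h4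
          omega
        rw [if_pos (h6 t), if_pos (h6 t')]
      · have h6 : ∀ t, σ (r, t) ∉ X (el k n) (v.drop j) := fun t h4 => by
          have := hXj t h4
          omega
        rw [if_neg (h6 t), if_neg (h6 t')]

theorem mem_gates {α : Type} {l L : List α} (h : l <:+ L) (hl : l ≠ []) :
    ∃ r < L.length, L.drop r = l := by
  obtain ⟨q, rfl⟩ := h
  refine ⟨q.length, ?_, by simp⟩
  have := List.length_pos_iff.2 hl
  rw [List.length_append]; omega

open Classical in
theorem low1 {L : List (Ins (KSet k n))} {R : ℝ≥0∞} (h : Req L Z R) (hn : n = m * k)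
    (hk : 0 < k) (hm : 2 ≤ m) {d : ℕ} (hR : R < (m + d + 1 : ℕ)) {q : ℝ} (hq : 0 ≤ q)
    (hZ : q * n ! ≤ Z.card) :
    q * 2 ^ n ≤ ((n : ℝ) + 1) * (L.length * (2 ^ m * 3 ^ m * 3 ^ (k * d))) := by
  set hh := (n + 1) / 2 with hhh
  have hn2 : 2 ≤ n := by
    rw [hn]; exact le_trans hm (Nat.le_mul_of_pos_right m hk)
  have hkn : k ≤ hh := by
    have : 2 * k ≤ n := by rw [hn]; exact Nat.mul_le_mul_right _ hm
    omega
  -- the good gates
  let Gd : Finset (List (Ins (KSet k n))) := ((range L.length).image fun r => L.drop r).filter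
    fun l => ∃ i j v, l = .ad i j :: v ∧ hh < (X (el k n) l).card ∧
      (X (el k n) (v.drop i)).card ≤ hh ∧ (X (el k n) (v.drop j)).card ≤ hh
  have hGd : Gd.card ≤ L.length := by
    calc Gd.card ≤ ((range L.length).image fun r => L.drop r).card := card_filter_le _ _
      _ ≤ (range L.length).card := card_image_le
      _ = L.length := card_range _
  have hsub : Z ⊆ Gd.biUnion fun l =>
      (Pat m k d).biUnion fun g => univ.filter fun σ : (Fin m × Fin k) ≃ Fin n => col l ∘ σ = g := by
    intro σ hσ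
    obtain ⟨p, hp, hpσ, hpR⟩ := h.mono (ne_top_of_lt hR) σ hσ
    have hcard : p.card ≤ m + d := by
      have : (p.card : ℝ≥0∞) < (m + d + 1 : ℕ) := lt_of_le_of_lt hpR hR
      have : p.card < m + d + 1 := by exact_mod_cast this
      omega
    obtain ⟨i, j, v, s, a, b, h1, h2, h3, h4, h5, h6, h7⟩ := split (el k n) (h := hh)
      (fun S => by rw [show (el k n S).card = k from S.2]; exact hkn) hp 0 Ctx.refl
      (by rw [h.X_eq, card_univ, Fintype.card_fin]; omega)
    rw [zero_add] at h4
    have h8 := col_pat h hk σ hp hpσ hcard h1 h2 h3 h4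
    rw [mem_biUnion]
    refine ⟨.ad i j :: v, ?_, ?_⟩
    · rw [mem_filter, mem_image]
      obtain ⟨r, hr, hr'⟩ := mem_gates h1.suffix (by simp)
      exact ⟨⟨r, mem_range.2 hr, hr'⟩, i, j, v, rfl, h5, h6, h7⟩
    · rw [mem_biUnion]
      exact ⟨_, h8, by simp⟩
  have hfib : ∀ l ∈ Gd, ∀ g : Fin m × Fin k → Fin 3,
      (univ.filter fun σ : (Fin m × Fin k) ≃ Fin n => col l ∘ σ = g).card ≤
        hh ! * (n - hh)! := by
    intro l hl g
    refine (card_col _ _).trans ?_
    simp only [Gd, mem_filter] at hl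
    obtain ⟨_, i, j, v, rfl, h1, h2, h3⟩ := hl
    rw [Fin.prod_univ_three]
    have e0 : Fintype.card {u // col (.ad i j :: v : List (Ins (KSet k n))) u = 0} =
        (X (el k n) (v.drop i)).card := by
      rw [Fintype.card_subtype]
      congr 1
      ext u
      rw [mem_filter]
      simp only [col, mem_univ, true_and]
      by_cases h4 : u ∈ X (el k n) (v.drop i)
      · simp [h4]
      · by_cases h5 : u ∈ X (el k n) (v.drop j) <;> simp [h4, h5]
    have e1 : Fintype.card {u // col (.ad i j :: v : List (Ins (KSet k n))) u = 1} =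
        (X (el k n) (v.drop j) \ X (el k n) (v.drop i)).card := by
      rw [Fintype.card_subtype]
      congr 1
      ext u
      rw [mem_filter, mem_sdiff]
      simp only [col, mem_univ, true_and]
      by_cases h4 : u ∈ X (el k n) (v.drop i)
      · simp [h4]
      · by_cases h5 : u ∈ X (el k n) (v.drop j) <;> simp [h4, h5]
    have e2 : Fintype.card {u // col (.ad i j :: v : List (Ins (KSet k n))) u = 2} =
        ((X (el k n) (v.drop i) ∪ X (el k n) (v.drop j))ᶜ).card := by
      rw [Fintype.card_subtype]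
      congr 1
      ext u
      rw [mem_filter, mem_compl, mem_union]
      simp only [col, mem_univ, true_and]
      by_cases h4 : u ∈ X (el k n) (v.drop i)
      · simp [h4]
      · by_cases h5 : u ∈ X (el k n) (v.drop j) <;> simp [h4, h5]
    rw [e0, e1, e2]
    have h6 : (X (el k n) (v.drop i) ∪ X (el k n) (v.drop j)).card =
        (X (el k n) (v.drop i)).card + (X (el k n) (v.drop j) \ X (el k n) (v.drop i)).card := by
      rw [← card_union_of_disjoint disjoint_sdiff, union_sdiff_self_eq_union]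
    have h7 : hh < (X (el k n) (v.drop i) ∪ X (el k n) (v.drop j)).card :=
      h1.trans_le (card_le_card (X_ad _ i j v))
    have h8 : (X (el k n) (v.drop i) ∪ X (el k n) (v.drop j)).card ≤ n := by
      calc _ ≤ (univ : Finset (Fin n)).card := card_le_card (subset_univ _)
        _ = n := by simp
    refine fact_three h2 ((card_le_card sdiff_subset).trans h3) ?_ ?_ ?_
    · rw [card_compl, Fintype.card_fin]; omega
    · rw [card_compl, Fintype.card_fin]; omega
    · omega
  have hmain : Z.card ≤ L.length * (2 ^ m * 3 ^ m * 3 ^ (k * d)) * (hh ! * (n - hh)!) := by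
    calc Z.card ≤ _ := card_le_card hsub
      _ ≤ ∑ l ∈ Gd, ((Pat m k d).biUnion fun g =>
            univ.filter fun σ : (Fin m × Fin k) ≃ Fin n => col l ∘ σ = g).card :=
          card_biUnion_le
      _ ≤ ∑ l ∈ Gd, ((Pat m k d).card * (hh ! * (n - hh)!)) := by
          refine sum_le_sum fun l hl => card_biUnion_le.trans ?_
          rw [← smul_eq_mul, ← sum_const]
          exact sum_le_sum fun g _ => hfib l hl g
      _ = Gd.card * ((Pat m k d).card * (hh ! * (n - hh)!)) := by rw [sum_const, smul_eq_mul]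
      _ ≤ L.length * ((2 ^ m * 3 ^ m * 3 ^ (k * d)) * (hh ! * (n - hh)!)) :=
          Nat.mul_le_mul hGd (Nat.mul_le_mul_right _ (card_pat d hk))
      _ = _ := by ring
  have h1 : n ! = n.choose hh * (hh ! * (n - hh)!) := by
    rw [← mul_assoc, Nat.choose_mul_factorial_mul_factorial (by omega)]
  have h2 : q * (n.choose hh * (hh ! * (n - hh)! : ℕ)) ≤
      L.length * (2 ^ m * 3 ^ m * 3 ^ (k * d)) * (hh ! * (n - hh)! : ℕ) := by
    calc q * (n.choose hh * (hh ! * (n - hh)! : ℕ)) = q * n ! := by rw [h1]; push_cast; ring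
      _ ≤ Z.card := hZ
      _ ≤ _ := by exact_mod_cast hmain
  have h3 : q * n.choose hh ≤ L.length * (2 ^ m * 3 ^ m * 3 ^ (k * d)) := by
    rw [← mul_assoc] at h2
    exact le_of_mul_le_mul_right h2 (by positivity)
  have h4 : (2 : ℝ) ^ n ≤ (n + 1) * n.choose hh := by exact_mod_cast two_pow_le_choose n
  calc q * 2 ^ n ≤ q * ((n + 1) * n.choose hh) := mul_le_mul_of_nonneg_left h4 hq
    _ = ((n : ℝ) + 1) * (q * n.choose hh) := by ring
    _ ≤ _ := mul_le_mul_of_nonneg_left h3 (by positivity)

end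

end Pool.Agent.TH837.SC
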