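import Pool.Agent.TH837.SC.Low

/-!
Every approximation factor smaller than the size of the sets needs exponentially many gates.
-/

set_option autoImplicit false

namespace Pool.Agent.TH837.SC

open Finset
open scoped Nat ENNReal

variable {m k n : ℕ} {Z : Finset ((Fin m × Fin k) ≃ Fin n)}

open Classical in
/-- the sets `X l` and `X l \ X l'` for the gates of `L` -/
noncomputable def diffs (L : List (Ins (KSet k n))) : Finset (Finset (Fin n)) :=
  (L.tails.toFinset ×ˢ L.tails.toFinset).image (fun x => X (el k n) x.1 \ X (el k n) x.2) ∪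
    L.tails.toFinset.image (fun l => X (el k n) l)

theorem card_diffs (L : List (Ins (KSet k n))) : (diffs L).card ≤ (L.length + 2) ^ 2 := by
  classical
  have h1 : L.tails.toFinset.card ≤ L.length + 1 :=
    (List.toFinset_card_le _).trans (by rw [List.length_tails])
  have h2 : ((L.tails.toFinset ×ˢ L.tails.toFinset).image
      (fun x => X (el k n) x.1 \ X (el k n) x.2)).card ≤ (L.length + 1) * (L.length + 1) :=
    card_image_le.trans (by rw [card_product]; exact Nat.mul_le_mul h1 h1)
  have h3 : (L.tails.toFinset.image (fun l => X (el k n) l)).card ≤ L.length + 1 :=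
    card_image_le.trans h1
  calc (diffs L).card ≤ _ := card_union_le _ _
    _ ≤ (L.length + 1) * (L.length + 1) + (L.length + 1) := Nat.add_le_add h2 h3
    _ ≤ (L.length + 2) ^ 2 := by nlinarith

theorem low2 {L : List (Ins (KSet k n))} {R : ℝ≥0∞} (h : Req L Z R) (hn : n = m * k)
    (hk : 0 < k) (hm : 0 < m) {ρ κ c e : ℝ} (hρ : 0 ≤ ρ) (hR : R ≤ ENNReal.ofReal (ρ * m))
    {t : ℕ} (ht : 1 ≤ t) (hc : 0 < c) (hc1 : c ≤ 1) (hκ : 1 ≤ κ) (he : 0 ≤ e)
    (htc : (t : ℝ) ≤ c * m) (hcκ : Real.exp 1 * c ^ (κ - 1) ≤ 1)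
    (hpar : κ * (ρ * m) + e * (6 * (ρ * m / t) + 2) < n) {q : ℝ}
    (hZ : q * n ! ≤ Z.card) :
    q ≤ ((L.length : ℝ) + 2) ^ 2 * (m + 1) * c ^ e := by
  classical
  have hm' : (0 : ℝ) < m := by exact_mod_cast hm
  have htm : t ≤ m := by
    have : (t : ℝ) ≤ m := htc.trans (by nlinarith)
    exact_mod_cast this
  have hcovers : ∀ σ ∈ Z, ∃ Y ∈ diffs L, ∃ j ∈ range (t + 1),
      κ * j + e < Y.card ∧ ∃ J : Finset (Fin m), J.card = j ∧ ∀ x, σ x ∈ Y → x.1 ∈ J := by
    intro σ hσ
    by_contra hcon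
    push Not at hcon
    have hRtop : R ≠ ⊤ := ne_top_of_le_ne_top (by simp) hR
    obtain ⟨p, hp, hpσ, hpR⟩ := h.mono hRtop σ hσ
    have hcard : (p.card : ℝ) ≤ ρ * m := by
      have h1 := hpR.trans hR
      rw [← ENNReal.ofReal_natCast] at h1
      exact (ENNReal.ofReal_le_ofReal_iff (by positivity)).1 h1
    -- few blocks covering a difference
    have key : ∀ Y ∈ diffs L, ∀ s : Multiset (KSet k n), (∀ S ∈ s, S ∈ Set.range (blk σ)) →
        s.card ≤ t → (∀ u ∈ Y, ∃ S ∈ s, u ∈ S.1) → (Y.card : ℝ) ≤ κ * s.card + e := by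
      intro Y hY s hs hst hcov
      by_contra hlt
      let J₀ : Finset (Fin m) := univ.filter fun r => blk σ r ∈ s
      have hJ₀ : J₀.card ≤ s.card := by
        calc J₀.card ≤ s.toFinset.card := by
              refine card_le_card_of_injOn (blk σ) ?_ (blk_inj hk σ).injOn
              intro r hr
              simpa [J₀] using hr
          _ ≤ s.card := Multiset.toFinset_card_le _
      obtain ⟨J, hJ1, _, hJ2⟩ := exists_subsuperset_card_eq (subset_univ J₀) hJ₀
        (by rw [card_univ, Fintype.card_fin]; exact hst.trans htm)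
      obtain ⟨x, hx1, hx2⟩ := hcon Y hY s.card (by rw [mem_range]; omega) (not_le.1 hlt) J hJ2
      obtain ⟨S, hS, hu⟩ := hcov _ hx1
      obtain ⟨r, rfl⟩ := hs S hS
      rw [mem_blk, Equiv.symm_apply_apply] at hu
      apply hx2
      apply hJ1
      simp only [J₀, mem_filter, mem_univ, true_and]
      rwa [hu]
    have h1 := pieces (el k n) L (fun S => S ∈ Set.range (blk σ)) ht he
      (by
        intro w u s hw hc hs hst
        refine key _ ?_ s hs hst ?_
        · rw [diffs, mem_union]
          left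
          rw [mem_image]
          exact ⟨(w, u), by simp [hw, hc.suffix.trans hw], rfl⟩
        · intro x hx
          rw [mem_sdiff] at hx
          exact X_ctx _ hc hx.1 hx.2)
      (by
        intro u q hu hq hs hst
        refine key _ ?_ q hs hst ?_
        · rw [diffs, mem_union]
          right
          rw [mem_image]
          exact ⟨u, by simp [hu], rfl⟩
        · intro x hx
          exact (mem_X _).1 hx q hq)
      hp L 0 (List.suffix_refl _) Ctx.refl (by simp) hpσ (by simp)
    rw [h.X_eq, card_univ, Fintype.card_fin] at h1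
    simp only [Multiset.card_zero, Nat.cast_zero, zero_add] at h1
    have h2 := G_le (t := t) p.card
    have h3 : (p.card : ℝ) / t ≤ ρ * m / t := by
      apply div_le_div_of_nonneg_right hcard; positivity
    have h4 : e * G t p.card ≤ e * (6 * (ρ * m / t) + 2) :=
      mul_le_mul_of_nonneg_left (by linarith) he
    have h5 : κ * p.card ≤ κ * (ρ * m) := mul_le_mul_of_nonneg_left hcard (by linarith)
    linarith
  -- counting
  have hsub : Z ⊆ (diffs L).biUnion fun Y =>
      ((range (t + 1)).filter fun j : ℕ => κ * j + e < Y.card).biUnion fun j =>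
        univ.filter fun σ => ∃ J : Finset (Fin m), J.card = j ∧ ∀ x, σ x ∈ Y → x.1 ∈ J := by
    intro σ hσ
    obtain ⟨Y, hY, j, hj, h1, h2⟩ := hcovers σ hσ
    rw [mem_biUnion]
    refine ⟨Y, hY, ?_⟩
    rw [mem_biUnion]
    exact ⟨j, by rw [mem_filter]; exact ⟨hj, h1⟩, by rw [mem_filter]; exact ⟨mem_univ _, h2⟩⟩
  have hfac : (0 : ℝ) < n ! := by exact_mod_cast Nat.factorial_pos n
  have hterm : ∀ Y : Finset (Fin n), ∀ j ∈ (range (t + 1)).filter
      (fun j : ℕ => κ * j + e < Y.card),
      (((univ.filter fun σ : (Fin m × Fin k) ≃ Fin n => ∃ J : Finset (Fin m), J.card = j ∧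
        ∀ x, σ x ∈ Y → x.1 ∈ J).card : ℕ) : ℝ) ≤ c ^ e * n ! := by
    intro Y j hj
    rw [mem_filter, mem_range] at hj
    have hjt : (j : ℝ) ≤ t := by exact_mod_cast Nat.lt_succ_iff.1 hj.1
    have h1 := choose_bound hn hm hk hc hc1 hκ he (hjt.trans htc) hcκ hj.2
    have h2 : (((univ.filter fun σ : (Fin m × Fin k) ≃ Fin n => ∃ J : Finset (Fin m), J.card = j ∧
        ∀ x, σ x ∈ Y → x.1 ∈ J).card : ℕ) : ℝ) ≤
        (m.choose j : ℝ) * (j * k).choose Y.card * (Y.card ! * (n - Y.card)!) := by
      exact_mod_cast card_rows Y j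
    refine h2.trans ?_
    have hYn : Y.card ≤ n := by simpa using card_le_univ Y
    have h3 : (n.choose Y.card : ℝ) * (Y.card ! * (n - Y.card)!) = n ! := by
      rw [← mul_assoc]
      exact_mod_cast Nat.choose_mul_factorial_mul_factorial hYn
    calc (m.choose j : ℝ) * (j * k).choose Y.card * (Y.card ! * (n - Y.card)!)
        ≤ (c ^ e * n.choose Y.card) * (Y.card ! * (n - Y.card)!) :=
          mul_le_mul_of_nonneg_right h1 (by positivity)
      _ = c ^ e * n ! := by rw [mul_assoc, h3]
  have hnat : Z.card ≤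
      ∑ Y ∈ diffs L, ∑ j ∈ (range (t + 1)).filter (fun j : ℕ => κ * j + e < Y.card),
        (univ.filter fun σ : (Fin m × Fin k) ≃ Fin n => ∃ J : Finset (Fin m), J.card = j ∧
          ∀ x, σ x ∈ Y → x.1 ∈ J).card :=
    (card_le_card hsub).trans (card_biUnion_le.trans (sum_le_sum fun Y _ => card_biUnion_le))
  have hmain : q * (n ! : ℝ) ≤ ((L.length : ℝ) + 2) ^ 2 * (m + 1) * c ^ e * n ! := by
    have hce : (0 : ℝ) ≤ c ^ e * n ! := by positivity
    calc q * (n ! : ℝ) ≤ (Z.card : ℝ) := hZ
      _ ≤ ∑ Y ∈ diffs L, ∑ j ∈ (range (t + 1)).filter (fun j : ℕ => κ * j + e < Y.card),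
          (((univ.filter fun σ : (Fin m × Fin k) ≃ Fin n => ∃ J : Finset (Fin m), J.card = j ∧
            ∀ x, σ x ∈ Y → x.1 ∈ J).card : ℕ) : ℝ) := by
          exact_mod_cast hnat
      _ ≤ ∑ Y ∈ diffs L, ∑ j ∈ (range (t + 1)).filter (fun j : ℕ => κ * j + e < Y.card),
          c ^ e * n ! := sum_le_sum fun Y _ => sum_le_sum fun j hj => hterm Y j hj
      _ ≤ ∑ Y ∈ diffs L, ((m : ℝ) + 1) * (c ^ e * n !) := by
          refine sum_le_sum fun Y _ => ?_
          rw [sum_const, nsmul_eq_mul]
          refine mul_le_mul_of_nonneg_right ?_ hce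
          have : ((range (t + 1)).filter (fun j : ℕ => κ * j + e < Y.card)).card ≤ m + 1 :=
            (card_filter_le _ _).trans (by rw [card_range]; omega)
          exact_mod_cast this
      _ = (diffs L).card * (((m : ℝ) + 1) * (c ^ e * n !)) := by
          rw [sum_const, nsmul_eq_mul]
      _ ≤ ((L.length : ℝ) + 2) ^ 2 * (((m : ℝ) + 1) * (c ^ e * n !)) := by
          refine mul_le_mul_of_nonneg_right ?_ (by positivity)
          exact_mod_cast card_diffs L
      _ = _ := by ring
  exact le_of_mul_le_mul_right hmain hfac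

end Pool.Agent.TH837.SC
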