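import Pool.Agent.TH837.SC.Sem

/-!
The lower bound `2 ^ Ω(n / ρ)`, and the programs with about `2 ^ (n / r)` instructions which
approximate set cover within the factor `r`.
-/

set_option autoImplicit false

namespace Pool.Agent.TH837.SC

open Finset Filter
open scoped Nat ENNReal

theorem asy3 : ∃ M : ℕ, ∀ m ≥ M, ∀ (k : ℕ) (ρ : ℝ), 1 ≤ ρ → 4 * ρ ≤ k →
    ∀ n : ℕ, n = m * k → ∀ (L : List (Ins (KSet k n)))
      (Z : Finset ((Fin m × Fin k) ≃ Fin n)) (R : ℝ≥0∞), Req L Z R →
      R ≤ ENNReal.ofReal (ρ * m) →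
      (2 : ℝ) ^ (-((n : ℝ) / (300 * ρ))) * (n ! : ℕ) ≤ Z.card →
      (2 : ℝ) ^ ((n : ℝ) / (300 * ρ)) ≤ L.length := by
  have hr : (1 : ℝ) < Real.exp (1 / 50) := by
    rw [Real.one_lt_exp_iff]; positivity
  obtain ⟨M₁, hM₁⟩ := eventually_atTop.1 (ev_pow_lt 5 hr)
  refine ⟨max M₁ 6, fun m hm k ρ hρ hρk n hn L Z R hReq hR hZ => ?_⟩
  have hmM₁ : M₁ ≤ m := le_trans (le_max_left _ _) hm
  have hm6 : 6 ≤ m := le_trans (le_max_right _ _) hm
  have hm6' : (6 : ℝ) ≤ m := by exact_mod_cast hm6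
  have hk0 : (0 : ℝ) < k := by linarith
  have hk1 : 0 < k := by exact_mod_cast hk0
  obtain ⟨c, hc⟩ : ∃ c : ℝ, c = Real.exp (-1) := ⟨_, rfl⟩
  have he3 := Real.exp_one_lt_d9
  have hc0 : 0 < c := by rw [hc]; exact Real.exp_pos _
  have hce : c * Real.exp 1 = 1 := by rw [hc, ← Real.exp_add]; simp
  have hc1 : c < 1 := by rw [hc, Real.exp_lt_one_iff]; norm_num
  have hc3 : 1 / 3 < c := by
    have : 1 < c * 3 := by
      calc 1 = c * Real.exp 1 := hce.symm
        _ < c * 3 := by apply mul_lt_mul_of_pos_left _ hc0; linarith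
    linarith
  have hcκ : Real.exp 1 * c ^ ((2 : ℝ) - 1) ≤ 1 := by
    rw [show (2 : ℝ) - 1 = 1 by norm_num, Real.rpow_one, mul_comm, hce]
  set t := ⌊c * m⌋₊ with ht
  have ht1 : (t : ℝ) ≤ c * m := Nat.floor_le (by positivity)
  have ht2 : c * m < t + 1 := Nat.lt_floor_add_one _
  have hcm : 2 ≤ c * m := by nlinarith
  have ht3 : c * m / 2 ≤ t := by linarith
  have ht4 : 1 ≤ t := by
    have : (0 : ℝ) < t := by linarith
    exact_mod_cast this
  have htpos : (0 : ℝ) < t := by exact_mod_cast ht4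
  have hnr : (n : ℝ) = m * k := by rw [hn]; push_cast; ring
  have hn0 : (0 : ℝ) < n := by rw [hnr]; positivity
  have hρ0 : (0 : ℝ) < ρ := by linarith
  obtain ⟨y, hy⟩ : ∃ y : ℝ, y = n / ρ := ⟨_, rfl⟩
  have hyρ : y * ρ = n := by rw [hy]; field_simp
  have hy4 : 4 * (m : ℝ) ≤ y := by
    rw [hy, le_div_iff₀ hρ0, hnr]
    nlinarith
  have hy0 : 0 < y := by linarith
  have hpar : 2 * (ρ * m) + y / 71 * (6 * (ρ * m / t) + 2) < (n : ℝ) := by
    have h1 : ρ * m / t ≤ 2 * ρ * Real.exp 1 := by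
      rw [div_le_iff₀ htpos]
      have h2 : ρ * (c * m) ≤ ρ * (2 * t) := mul_le_mul_of_nonneg_left (by linarith) hρ0.le
      calc ρ * m = (ρ * (c * m)) * Real.exp 1 := by
            calc ρ * m = ρ * m * (c * Real.exp 1) := by rw [hce, mul_one]
              _ = _ := by ring
        _ ≤ (ρ * (2 * t)) * Real.exp 1 := mul_le_mul_of_nonneg_right h2 (Real.exp_pos 1).le
        _ = _ := by ring
    have h2 : 6 * (ρ * m / t) + 2 ≤ 35 * ρ := by
      have : ρ * Real.exp 1 ≤ ρ * 2.7182818286 := mul_le_mul_of_nonneg_left he3.le hρ0.le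
      linarith
    have h3 : y / 71 * (6 * (ρ * m / t) + 2) ≤ y / 71 * (35 * ρ) :=
      mul_le_mul_of_nonneg_left h2 (by positivity)
    have h4 : y / 71 * (35 * ρ) = 35 / 71 * n := by rw [← hyρ]; ring
    have h5 : 2 * (ρ * m) ≤ n / 2 := by rw [hnr]; nlinarith
    linarith
  have h1 := low2 hReq hn hk1 (by omega) hρ0.le hR ht4 hc0 hc1.le (by norm_num : (1 : ℝ) ≤ 2)
    (e := y / 71) (by positivity) ht1 hcκ hpar hZ
  have h2 : c ^ (y / 71) = Real.exp (-(y / 71)) := by
    rw [hc, ← Real.exp_mul]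
    congr 1
    ring
  rw [h2] at h1
  have hγ : (n : ℝ) / (300 * ρ) = y / 300 := by
    rw [hy]; field_simp
  rw [hγ] at h1
  rw [hγ]
  have hlog : Real.log 2 < 3 / 4 := by
    have := Real.log_two_lt_d9; linarith
  have h3 : Real.exp (-(y / 400)) ≤ (2 : ℝ) ^ (-(y / 300)) := by
    rw [Real.rpow_def_of_pos (by norm_num), Real.exp_le_exp]
    nlinarith
  have h4 : (2 : ℝ) ^ (y / 300) ≤ Real.exp (y / 400) := by
    rw [Real.rpow_def_of_pos (by norm_num), Real.exp_le_exp]
    nlinarith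
  by_contra hlt
  rw [not_le] at hlt
  have hE1 : 1 ≤ Real.exp (y / 400) := Real.one_le_exp (by positivity)
  have h5 : ((L.length : ℝ) + 2) ^ 2 ≤ 9 * Real.exp (y / 400) ^ 2 := by
    have : (L.length : ℝ) + 2 ≤ 3 * Real.exp (y / 400) := by linarith
    calc ((L.length : ℝ) + 2) ^ 2 ≤ (3 * Real.exp (y / 400)) ^ 2 :=
          pow_le_pow_left₀ (by positivity) this 2
      _ = _ := by ring
  have h6 : Real.exp (-(y / 400)) ≤
      9 * Real.exp (y / 400) ^ 2 * (m + 1) * Real.exp (-(y / 71)) := by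
    refine h3.trans (h1.trans ?_)
    gcongr
  have h7 : Real.exp (1 / 50) ^ m ≤ 9 * (m + 1) := by
    have e1 : Real.exp (1 / 50) ^ m ≤ Real.exp (y / 200) := by
      rw [← Real.exp_nat_mul, Real.exp_le_exp]
      linarith
    refine e1.trans ?_
    have e2 : Real.exp (y / 400) ^ 2 = Real.exp (y / 200) := by
      rw [← Real.exp_nat_mul]; congr 1; push_cast; ring
    rw [e2] at h6
    have h8 := mul_le_mul_of_nonneg_right h6 (Real.exp_pos (y / 400 + y / 200)).le
    rw [← Real.exp_add] at h8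
    have e4 : 9 * Real.exp (y / 200) * (m + 1) * Real.exp (-(y / 71)) *
        Real.exp (y / 400 + y / 200) =
        9 * (m + 1) * (Real.exp (y / 200) * Real.exp (-(y / 71)) *
          Real.exp (y / 400 + y / 200)) := by ring
    rw [e4, ← Real.exp_add, ← Real.exp_add] at h8
    have e5 : Real.exp (y / 200 + -(y / 71) + (y / 400 + y / 200)) ≤ 1 := by
      rw [Real.exp_le_one_iff]
      linarith
    calc Real.exp (y / 200) = Real.exp (-(y / 400) + (y / 400 + y / 200)) := by
          congr 1; ring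
      _ ≤ _ := h8
      _ ≤ 9 * (m + 1) * 1 := mul_le_mul_of_nonneg_left e5 (by positivity)
      _ = _ := mul_one _
  have h8 := hM₁ m hmM₁
  have h9 : 9 * ((m : ℝ) + 1) ≤ ((m : ℝ) + 1) ^ 5 := by
    have h11 : (3 : ℝ) ^ 2 ≤ ((m : ℝ) + 1) ^ 2 := pow_le_pow_left₀ (by norm_num) (by linarith) 2
    have h12 : (1 : ℝ) ≤ ((m : ℝ) + 1) ^ 2 := one_le_pow₀ (by linarith)
    calc 9 * ((m : ℝ) + 1) ≤ ((m : ℝ) + 1) ^ 2 * ((m : ℝ) + 1) ^ 2 * ((m : ℝ) + 1) := by
          have : 9 ≤ ((m : ℝ) + 1) ^ 2 * ((m : ℝ) + 1) ^ 2 := by nlinarith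
          exact mul_le_mul_of_nonneg_right this (by positivity)
      _ = _ := by ring
  linarith

section dp

variable {k n : ℕ}

/-- the least weight of a family which covers `X` -/
noncomputable def optX (X : Finset (Fin n)) (w : KSet k n → ℝ≥0∞) : ℝ≥0∞ :=
  ⨅ F : {F : Finset (KSet k n) // ∀ u ∈ X, ∃ S ∈ F, u ∈ S.1}, ∑ S ∈ F.1, w S

theorem optX_le {X : Finset (Fin n)} {w : KSet k n → ℝ≥0∞} {F : Finset (KSet k n)}
    (hF : ∀ u ∈ X, ∃ S ∈ F, u ∈ S.1) : optX X w ≤ ∑ S ∈ F, w S :=
  iInf_le (fun F : {F : Finset (KSet k n) // ∀ u ∈ X, ∃ S ∈ F, u ∈ S.1} => ∑ S ∈ F.1, w S)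
    ⟨F, hF⟩

theorem opt_eq (w : KSet k n → ℝ≥0∞) : opt w = optX univ w := by
  apply le_antisymm
  · exact le_iInf fun F => iInf₂_le F.1 fun u => F.2 u (mem_univ _)
  · exact le_iInf₂ fun F hF => optX_le fun u _ => hF u

theorem optX_le_opt (X : Finset (Fin n)) (w : KSet k n → ℝ≥0∞) : optX X w ≤ opt w :=
  le_iInf₂ fun F hF => optX_le fun u _ => hF u

theorem optX_empty (w : KSet k n → ℝ≥0∞) : optX (∅ : Finset (Fin n)) w = 0 := by
  have : optX (∅ : Finset (Fin n)) w ≤ ∑ S ∈ (∅ : Finset (KSet k n)), w S :=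
    optX_le (by simp)
  simpa using this

theorem optX_union (X Y : Finset (Fin n)) (w : KSet k n → ℝ≥0∞) :
    optX (X ∪ Y) w ≤ optX X w + optX Y w := by
  classical
  rw [optX, optX, ENNReal.iInf_add]
  refine le_iInf fun F => ?_
  rw [optX, ENNReal.add_iInf]
  refine le_iInf fun F' => ?_
  have h1 : ∀ u ∈ X ∪ Y, ∃ S ∈ F.1 ∪ F'.1, u ∈ S.1 := by
    intro u hu
    rcases mem_union.1 hu with hu | hu
    · obtain ⟨S, hS, h⟩ := F.2 u hu
      exact ⟨S, mem_union_left _ hS, h⟩
    · obtain ⟨S, hS, h⟩ := F'.2 u hu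
      exact ⟨S, mem_union_right _ hS, h⟩
  refine (optX_le h1).trans ?_
  rw [← sum_union_inter]
  exact le_self_add

theorem optX_biUnion (U : ℕ → Finset (Fin n)) (w : KSet k n → ℝ≥0∞) (r : ℕ) :
    optX ((range r).biUnion U) w ≤ ∑ i ∈ range r, optX (U i) w := by
  induction r with
  | zero => simp [optX_empty]
  | succ r ih =>
    rw [sum_range_succ, range_add_one, biUnion_insert, union_comm]
    exact (optX_union _ _ _).trans (add_le_add_left ih _)

theorem optX_rec {X : Finset (Fin n)} (hX : X.Nonempty) (w : KSet k n → ℝ≥0∞) :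
    optX X w = (univ.filter fun S : KSet k n => ∃ u ∈ X, u ∈ S.1).inf
      fun S => w S + optX (X \ S.1) w := by
  classical
  apply le_antisymm
  · refine Finset.le_inf fun S _ => ?_
    conv_rhs => rw [optX, ENNReal.add_iInf]
    refine le_iInf fun F => ?_
    have h1 : ∀ u ∈ X, ∃ T ∈ insert S F.1, u ∈ T.1 := by
      intro u hu
      by_cases huS : u ∈ S.1
      · exact ⟨S, mem_insert_self _ _, huS⟩
      · obtain ⟨T, hT, h⟩ := F.2 u (mem_sdiff.2 ⟨hu, huS⟩)
        exact ⟨T, mem_insert_of_mem hT, h⟩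
    refine (optX_le h1).trans ?_
    by_cases hS : S ∈ F.1
    · rw [insert_eq_of_mem hS]
      exact le_add_self
    · rw [sum_insert hS]
  · refine le_iInf fun F => ?_
    obtain ⟨u, hu⟩ := hX
    obtain ⟨S, hS, huS⟩ := F.2 u hu
    refine (Finset.inf_le (mem_filter.2 ⟨mem_univ S, u, hu, huS⟩)).trans ?_
    have h1 : ∀ v ∈ X \ S.1, ∃ T ∈ F.1.erase S, v ∈ T.1 := by
      intro v hv
      rw [Finset.mem_sdiff] at hv
      obtain ⟨T, hT, h⟩ := F.2 v hv.1
      refine ⟨T, mem_erase.2 ⟨?_, hT⟩, h⟩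
      rintro rfl
      exact hv.2 h
    rw [← add_sum_erase _ _ hS]
    exact add_le_add_right (optX_le h1) _

variable {l : List ((KSet k n → ℝ≥0∞) → ℝ≥0∞)}

theorem load_add (hl : Prog l) (g : KSet k n → (KSet k n → ℝ≥0∞) → ℝ≥0∞)
    (hin : ∀ S : KSet k n, (fun w => w S) ∈ l) : ∀ Ss : List (KSet k n), (∀ S ∈ Ss, g S ∈ l) →
    ∃ l', Prog l' ∧ (∀ f ∈ l, f ∈ l') ∧ l'.length = l.length + Ss.length ∧
      ∀ S ∈ Ss, (fun w => w S + g S w) ∈ l' := by
  intro Ss
  induction Ss with
  | nil => intro _; exact ⟨l, hl, fun _ h => h, by simp, by simp⟩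
  | cons S Ss ih =>
    intro h
    obtain ⟨l', h1, h2, h3, h4⟩ := ih fun S' hS' => h S' (List.mem_cons_of_mem _ hS')
    refine ⟨_, Prog.ad l' _ _ h1 (h2 _ (hin S)) (h2 _ (h S (by simp))), fun f hf =>
      List.mem_cons_of_mem _ (h2 f hf), by simp [h3]; omega, ?_⟩
    intro S' hS'
    rcases List.mem_cons.1 hS' with rfl | hS'
    · simp
    · exact List.mem_cons_of_mem _ (h4 S' hS')

theorem foldr_inf' {Ω : Type} [DecidableEq Ω] (h : Ω → (KSet k n → ℝ≥0∞) → ℝ≥0∞)
    (w : KSet k n → ℝ≥0∞) (l : List Ω) :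
    (l.map h).foldr (fun g a => min (g w) a) ⊤ = l.toFinset.inf fun S => h S w := by
  induction l with
  | nil => simp
  | cons S l ih =>
    rw [List.map_cons, List.foldr_cons, ih, List.toFinset_cons, inf_insert]

/-- computing `optX X` from the smaller sets -/
theorem one_set (hl : Prog l) (htop : (fun _ => ⊤) ∈ l) (hin : ∀ S : KSet k n, (fun w => w S) ∈ l)
    {X : Finset (Fin n)} (hX : X.Nonempty)
    (hsub : ∀ S : KSet k n, (∃ u ∈ X, u ∈ S.1) → optX (X \ S.1) ∈ l) :
    ∃ l', Prog l' ∧ (∀ f ∈ l, f ∈ l') ∧ l'.length ≤ l.length + 2 * Fintype.card (KSet k n) ∧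
      optX X ∈ l' := by
  classical
  set Hs := (univ.filter fun S : KSet k n => ∃ u ∈ X, u ∈ S.1) with hHs
  have hcard : Hs.toList.length ≤ Fintype.card (KSet k n) := by
    rw [length_toList]; exact card_le_univ _
  obtain ⟨l₁, h1, h2, h3, h4⟩ := load_add hl (fun S => optX (X \ S.1)) hin Hs.toList
    (fun S hS => hsub S (by rw [mem_toList, hHs, mem_filter] at hS; exact hS.2))
  obtain ⟨l₂, h5, h6, h7, h8⟩ := fold_min h1 _ (h2 _ htop)
    (Hs.toList.map fun S w => w S + optX (X \ S.1) w)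
    (fun g hg => by
      obtain ⟨S, hS, rfl⟩ := List.mem_map.1 hg
      exact h4 S hS)
  refine ⟨l₂, h5, fun f hf => h6 f (h2 f hf), ?_, ?_⟩
  · rw [h7, h3, List.length_map]; omega
  · have : (fun w => (Hs.toList.map fun S (w : KSet k n → ℝ≥0∞) =>
        w S + optX (X \ S.1) w).foldr (fun g a => min (g w) a) ⊤) = optX X := by
      funext w
      rw [foldr_inf', toList_toFinset, optX_rec hX]
    rwa [this] at h8

theorem many_sets (hl : Prog l) (htop : (fun _ => ⊤) ∈ l)
    (hin : ∀ S : KSet k n, (fun w => w S) ∈ l) : ∀ Xs : List (Finset (Fin n)),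
    (∀ X ∈ Xs, X.Nonempty) →
    (∀ X ∈ Xs, ∀ S : KSet k n, (∃ u ∈ X, u ∈ S.1) → optX (X \ S.1) ∈ l) →
    ∃ l', Prog l' ∧ (∀ f ∈ l, f ∈ l') ∧
      l'.length ≤ l.length + Xs.length * (2 * Fintype.card (KSet k n)) ∧
      ∀ X ∈ Xs, optX X ∈ l' := by
  intro Xs
  induction Xs with
  | nil => intro _ _; exact ⟨l, hl, fun _ h => h, by simp, by simp⟩
  | cons X Xs ih =>
    intro hne hsub
    obtain ⟨l₁, h1, h2, h3, h4⟩ := ih (fun Y hY => hne Y (List.mem_cons_of_mem _ hY))
      (fun Y hY => hsub Y (List.mem_cons_of_mem _ hY))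
    obtain ⟨l₂, h5, h6, h7, h8⟩ := one_set h1 (h2 _ htop) (fun S => h2 _ (hin S))
      (hne X (by simp)) (fun S hS => h2 _ (hsub X (by simp) S hS))
    refine ⟨l₂, h5, fun f hf => h6 f (h2 f hf), ?_, ?_⟩
    · rw [List.length_cons, add_mul, one_mul]; omega
    · intro Y hY
      rcases List.mem_cons.1 hY with rfl | hY
      · exact h8
      · exact h6 _ (h4 Y hY)

theorem levels (hl : Prog l) (htop : (fun _ => ⊤) ∈ l) (hzero : (fun _ => 0) ∈ l)
    (hin : ∀ S : KSet k n, (fun w => w S) ∈ l) (V : Finset (Fin n)) : ∀ j : ℕ,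
    ∃ l', Prog l' ∧ (∀ f ∈ l, f ∈ l') ∧
      l'.length ≤ l.length + (V.powerset.filter fun X => X.card ≤ j).card *
        (2 * Fintype.card (KSet k n)) ∧
      ∀ X ∈ V.powerset, X.card ≤ j → optX X ∈ l' := by
  classical
  intro j
  induction j with
  | zero =>
    refine ⟨l, hl, fun _ h => h, by omega, ?_⟩
    intro X _ hX
    have hX0 : X = ∅ := by simpa using hX
    have : optX X = (fun _ => 0 : (KSet k n → ℝ≥0∞) → ℝ≥0∞) := by
      funext w; rw [hX0, optX_empty]
    rw [this]
    exact hzero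
  | succ j ih =>
    obtain ⟨l₁, h1, h2, h3, h4⟩ := ih
    obtain ⟨l₂, h5, h6, h7, h8⟩ := many_sets h1 (h2 _ htop) (fun S => h2 _ (hin S))
      (V.powerset.filter fun X => X.card = j + 1).toList
      (fun X hX => by
        rw [mem_toList, mem_filter] at hX
        rw [← card_pos, hX.2]; omega)
      (fun X hX S hS => by
        rw [mem_toList, mem_filter, mem_powerset] at hX
        obtain ⟨u, hu, huS⟩ := hS
        refine h4 _ (mem_powerset.2 (sdiff_subset.trans hX.1)) ?_
        have : (X \ S.1).card < X.card := card_lt_card ⟨sdiff_subset, fun h => by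
          have := h hu
          rw [Finset.mem_sdiff] at this
          exact this.2 huS⟩
        omega)
    refine ⟨l₂, h5, fun f hf => h6 f (h2 f hf), ?_, ?_⟩
    · rw [length_toList] at h7
      have h9 : (V.powerset.filter fun X => X.card ≤ j + 1).card =
          (V.powerset.filter fun X => X.card ≤ j).card +
          (V.powerset.filter fun X => X.card = j + 1).card := by
        rw [← card_union_of_disjoint]
        · congr 1
          ext X
          simp only [mem_filter, mem_union, mem_powerset]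
          constructor
          · rintro ⟨h, h'⟩
            rcases Nat.lt_or_ge X.card (j + 1) with h'' | h''
            · exact Or.inl ⟨h, by omega⟩
            · exact Or.inr ⟨h, by omega⟩
          · rintro (⟨h, h'⟩ | ⟨h, h'⟩)
            · exact ⟨h, by omega⟩
            · exact ⟨h, by omega⟩
        · rw [disjoint_left]
          intro X hX hX'
          rw [mem_filter] at hX hX'
          omega
      rw [h9, add_mul]
      omega
    · intro X hX hXj
      rcases Nat.lt_or_ge X.card (j + 1) with h'' | h''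
      · exact h6 _ (h4 X hX (by omega))
      · exact h8 X (by rw [mem_toList, mem_filter]; exact ⟨hX, by omega⟩)

theorem comp_parts (hl : Prog l) (htop : (fun _ => ⊤) ∈ l) (hzero : (fun _ => 0) ∈ l)
    (hin : ∀ S : KSet k n, (fun w => w S) ∈ l) (U : ℕ → Finset (Fin n)) {b : ℕ}
    (hU : ∀ i, (U i).card ≤ b) (r : ℕ) :
    ∃ l', Prog l' ∧ (∀ f ∈ l, f ∈ l') ∧
      l'.length ≤ l.length + r * (2 ^ b * (2 * Fintype.card (KSet k n))) ∧
      ∀ i < r, optX (U i) ∈ l' := by
  classical
  induction r with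
  | zero => exact ⟨l, hl, fun _ h => h, by simp, by simp⟩
  | succ r ih =>
    obtain ⟨l₁, h1, h2, h3, h4⟩ := ih
    obtain ⟨l₂, h5, h6, h7, h8⟩ := levels h1 (h2 _ htop) (h2 _ hzero) (fun S => h2 _ (hin S))
      (U r) (U r).card
    refine ⟨l₂, h5, fun f hf => h6 f (h2 f hf), ?_, ?_⟩
    · have h9 : ((U r).powerset.filter fun X => X.card ≤ (U r).card).card ≤ 2 ^ b :=
        (card_filter_le _ _).trans (by
          rw [card_powerset]
          exact Nat.pow_le_pow_right (by norm_num) (hU r))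
      have h10 := Nat.mul_le_mul_right (2 * Fintype.card (KSet k n)) h9
      rw [add_mul, one_mul]
      omega
    · intro i hi
      rcases Nat.lt_or_ge i r with h | h
      · exact h6 _ (h4 i h)
      · have : i = r := by omega
        rw [this]
        exact h8 _ (mem_powerset_self _) le_rfl

/-- the program of factor `r` -/
theorem factor_r (k n r : ℕ) (hr : 1 ≤ r) : ∃ f : (KSet k n → ℝ≥0∞) → ℝ≥0∞,
    Computes f (r * (2 ^ ((n + r - 1) / r) * (2 * Fintype.card (KSet k n))) +
      Fintype.card (KSet k n) + r + 2) ∧ ∀ w, opt w ≤ f w ∧ f w ≤ r * opt w := by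
  classical
  set b := (n + r - 1) / r with hb
  have hbn : n ≤ r * b := by
    have h1 : r * b + (n + r - 1) % r = n + r - 1 := Nat.div_add_mod _ _
    have h2 : (n + r - 1) % r < r := Nat.mod_lt _ (by omega)
    omega
  let U : ℕ → Finset (Fin n) := fun i => univ.filter fun u => u.1 / b = i
  have hU : ∀ i, (U i).card ≤ b := by
    intro i
    calc (U i).card ≤ (range b).card := by
          refine card_le_card_of_injOn (fun u => u.1 % b) ?_ ?_
          · intro u hu
            have hb0 : 0 < b := by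
              rcases Nat.eq_zero_or_pos b with h | h
              · have := u.2; rw [h] at hbn; omega
              · exact h
            simp only [coe_range, Set.mem_Iio]
            exact Nat.mod_lt _ hb0
          · intro u hu v hv h
            simp only [U, coe_filter, mem_univ, true_and, Set.mem_ofPred_eq] at hu hv
            have h1 := Nat.div_add_mod u.1 b
            have h2 := Nat.div_add_mod v.1 b
            have h' : u.1 % b = v.1 % b := h
            apply Fin.ext
            rw [← h1, ← h2, hu, hv, h']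
      _ = b := card_range b
  have hcov : (range r).biUnion U = univ := by
    rw [eq_univ_iff_forall]
    intro u
    rw [mem_biUnion]
    refine ⟨u.1 / b, ?_, by simp [U]⟩
    rw [mem_range]
    apply Nat.div_lt_of_lt_mul
    have := u.2
    rw [mul_comm]
    omega
  obtain ⟨l₁, h1, h2, h3, h4⟩ := load (Ω := KSet k n)
    (Prog.cst _ ⊤ (Prog.cst _ 0 Prog.nil)) univ.toList
  obtain ⟨l₂, h5, h6, h7, h8⟩ := comp_parts h1 (h2 _ (by simp)) (h2 _ (by simp))
    (fun S => h4 S (by simp)) U hU r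
  obtain ⟨l₃, h9, h10, h11, h12⟩ := fold_add h5 (fun _ => 0) (h6 _ (h2 _ (by simp)))
    ((List.range r).map fun i => optX (U i))
    (fun g hg => by
      obtain ⟨i, hi, rfl⟩ := List.mem_map.1 hg
      exact h8 i (List.mem_range.1 hi))
  refine ⟨fun w => ∑ i ∈ range r, optX (U i) w, ⟨l₃, h9, ?_, ?_⟩, fun w => ⟨?_, ?_⟩⟩
  · have : (fun w => ((List.range r).map fun i => (optX (U i) :
        (KSet k n → ℝ≥0∞) → ℝ≥0∞)).foldr (fun g a => g w + a) 0) =
        fun w => ∑ i ∈ range r, optX (U i) w := by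
      funext w
      have aux : ∀ is : List ℕ, (is.map fun i => (optX (U i) :
          (KSet k n → ℝ≥0∞) → ℝ≥0∞)).foldr (fun g a => g w + a) 0 =
          (is.map fun i => optX (U i) w).sum := by
        intro is
        induction is with
        | nil => simp
        | cons i is ih => rw [List.map_cons, List.foldr_cons, ih]; simp
      rw [aux]
      have aux' : ∀ r : ℕ, ((List.range r).map fun i => optX (U i) w).sum =
          ∑ i ∈ range r, optX (U i) w := by
        intro r
        induction r with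
        | zero => simp
        | succ r ih => rw [List.range_succ, List.map_append, List.sum_append, ih, sum_range_succ]; simp
      exact aux' r
    rwa [this] at h12
  · rw [h11, List.length_map, List.length_range]
    have h13 : l₁.length = 2 + Fintype.card (KSet k n) := by
      rw [h3, length_toList, card_univ]; simp
    rw [h13] at h7
    omega
  · rw [opt_eq, ← hcov]
    exact optX_biUnion U w r
  · calc ∑ i ∈ range r, optX (U i) w ≤ ∑ _i ∈ range r, opt w :=
          sum_le_sum fun i _ => optX_le_opt _ _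
      _ = r * opt w := by rw [sum_const, card_range, nsmul_eq_mul]

end dp

end Pool.Agent.TH837.SC
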